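import Pool.Agent.Run7.h316.DN.Dom

/-!
# Robust properties given by sets which are small for all abstract densities
-/

set_option autoImplicit false

namespace Pool.Agent.Run7.h316.DN

open Filter Topology MeasureTheory
open Pool.Agent.Run7.h316.EQ
open Pool.Agent.N24.RW (ProNull Walk orb words)
open Pool.Agent.N24.KM (Koksma Rarely Metric)

section

variable {ι : Type} [Fintype ι]

/-- the pronull density at the primes that do not divide `M` -/
def denP (ι : Type) [Fintype ι] (M : ℕ) (hM : 0 < M) : Pool.Agent.N938.TD.Den ι where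
  UD := Pool.Agent.N891.OR.UDM M
  mono := fun h hST => Pool.Agent.N891.OR.UDM.mono h hST
  union := fun h h' => Pool.Agent.N891.OR.UDM.union h h'
  empty := fun hε => Pool.Agent.N891.OR.UDM.empty hε
  densp := fun c hc ε hε => Pool.Agent.N891.OR.densp_M M hM c hc ε hε
  hit := by
    intro P A B Δ hP _ _ hroot ε hε
    refine Pool.Agent.N891.OR.hit_eval hM P hP (fun a ha => ?_) ε hε
    apply hroot (MvPolynomial.map (Int.castRingHom ℚ) a)
    rw [Polynomial.eval_map, Polynomial.eval₂_at_apply, ha, map_zero]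

theorem hdensP (ι : Type) [Fintype ι] (M : ℕ) (hM : 0 < M) : (denP ι M hM).HDens := by
  refine ⟨M + 1, fun c hc p hp hpM ε hε => Pool.Agent.N891.OR.dens_M c hc p hp (fun h => ?_) ε hε⟩
  have := Nat.le_of_dvd hM h
  omega

/-- the pronull density at the primes that do not divide `M` -/
@[reducible] def smP (ι : Type) [Fintype ι] (M : ℕ) (hM : 0 < M) : Pool.Agent.N455.TX.Sm ι where
  UD := Pool.Agent.N891.OR.UDM M
  mono' := fun h hST => Pool.Agent.N891.OR.UDM.mono h hST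
  union' := fun h h' => Pool.Agent.N891.OR.UDM.union h h'
  le' := fun h hS => Pool.Agent.N891.OR.UDM.le h hS
  empty' := fun hε => Pool.Agent.N891.OR.UDM.empty hε
  densp' := fun c hc ε hε => Pool.Agent.N891.OR.densp_M M hM c hc ε hε
  hit' := fun P hP hroot ε hε => Pool.Agent.N891.OR.hit_eval hM P hP hroot ε hε

theorem allNull_den {B : Set (ι → ℤ)} (h : ∀ δ : Pool.Agent.N938.TD.Den ι, δ.D0 B) : AllNull B :=
  allNull_of_den (fun M hM => h (denP ι M hM)) h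

theorem allNull_sm {B : Set (ι → ℤ)}
    (h : ∀ [Pool.Agent.N455.TX.Sm ι], Pool.Agent.N455.TX.D0 B) : AllNull B := by
  refine allNull_of_sm (fun M hM ε hε => ?_) h
  let _ : Pool.Agent.N455.TX.Sm ι := smP ι M hM
  exact h ε hε

/-- pronull, and rare in all fully dominated families -/
def FullNull (B : Set (ι → ℤ)) : Prop :=
  ProNull B ∧ ∀ (Ω : Type) (S : ℕ → Finset Ω) (c : Ω → ι → ℤ), FullyDominated S c → Rare S c B

theorem FullNull.mono {A B : Set (ι → ℤ)} (h : FullNull B) (hAB : A ⊆ B) : FullNull A :=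
  ⟨(Pool.Agent.N24.RW.clo ι).1 A B hAB h.1, fun Ω S c hc => Rare.mono hAB (h.2 Ω S c hc)⟩

theorem AllNull.full {B : Set (ι → ℤ)} (h : AllNull B) : FullNull B :=
  ⟨h.1, fun Ω S c hc => h.2 Ω S c hc.dom⟩

theorem fullNull_den {B : Set (ι → ℤ)}
    (h : ∀ δ : Pool.Agent.N938.TD.Den ι, δ.HDens → δ.D0 B) : FullNull B :=
  ⟨fun M hM => h (denP ι M hM) (hdensP ι M hM), fun _ _ _ hc => rare_of_hdens h hc⟩

/-- the metric sequences, random orbits and generalised polynomials -/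
theorem middle [DecidableEq ι] [Nonempty ι] {I : Type} [Countable I]
    (B : I → Set (ι → ℤ)) (hB : ∀ i, ProNull (B i))
    (Q : ∀ Ω : Type, (ℕ → Finset Ω) → (Ω → ι → ℤ) → Prop)
    (hQ : ∀ (Ω : Type) (S : ℕ → Finset Ω) (c : Ω → ι → ℤ), (∀ i, Rare S c (B i)) → Q Ω S c) :
    (∀ (a b : ι → ℝ) (f : ι → ℕ → ℝ → ℝ), (∀ i, a i < b i) → (∀ i, Koksma (a i) (b i) (f i)) →
      ∀ᵐ x : ι → ℝ, (∀ i, x i ∈ Set.Icc (a i) (b i)) → Q ℕ Finset.range (fun n i => ⌊f i n (x i)⌋)) ∧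
    (∀ (a : ι → ℕ → ℝ) (δ : ℝ), 0 < δ → (∀ i m n, m ≠ n → δ ≤ |a i m - a i n|) →
      ∀ᵐ x : ι → ℝ, Q ℕ Finset.range (fun n i => ⌊a i n * x i⌋)) ∧
    (∀ (k : ℕ → ℕ) (ξ : ι → ℝ), Function.Injective k → (∀ i, ξ i ≠ 0) →
      ∀ᵐ x : ι → ℝ, (∀ i, 1 < x i) → Q ℕ Finset.range (fun n i => ⌊ξ i * x i ^ k n⌋)) ∧
    (2 ≤ Fintype.card ι → ∀ (W : Walk ι) (v : ι → ℤ), v ≠ 0 →
      ∀ᵐ w ∂(words W.m), Q ℕ Finset.range (orb W v w)) ∧
    (∀ (F : ι → Finset ℝ) (a : ι → ℝ → ℝ) (e : ι → ℝ),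
      (∀ i, e i ∈ F i ∧ (∀ t ∈ F i, t ≤ e i) ∧ 0 < e i ∧ (∀ m : ℕ, e i ≠ m) ∧ 0 < a i (e i)) →
      Function.Injective e →
      Q ℕ (fun N => Finset.Ioc N (2 * N)) (fun n i => ⌊∑ t ∈ F i, a i t * (n : ℝ) ^ t⌋) ∧
      Q ℕ (fun N => (Finset.Ioc N (2 * N)).filter Nat.Prime)
        (fun n i => ⌊∑ t ∈ F i, a i t * (n : ℝ) ^ t⌋)) := by
  refine ⟨fun a b f hab hf => ?_, fun a δ hδ ha => ?_, fun k ξ hk hξ => ?_,
    fun h2 W v hv => ?_, fun F a e he hinj => ?_⟩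
  · have h1 : ∀ᵐ x : ι → ℝ, ∀ i, (∀ i, x i ∈ Set.Icc (a i) (b i)) →
        Rare Finset.range (fun n i => ⌊f i n (x i)⌋) (B i) := by
      rw [ae_all_iff]
      intro i
      filter_upwards [(Pool.Agent.N24.KM.main _ (B i) (hB i)).1 a b f hab hf] with x hx hP
      exact Pool.Agent.N918.EQ.rareIn_of_rarely (hx hP)
    filter_upwards [h1] with x hx hP
    exact hQ _ _ _ fun i => hx i hP
  · have h1 : ∀ᵐ x : ι → ℝ, ∀ i, Rare Finset.range (fun n i => ⌊a i n * x i⌋) (B i) := by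
      rw [ae_all_iff]
      intro i
      filter_upwards [(Pool.Agent.N24.KM.main _ (B i) (hB i)).2.1 a δ hδ ha] with x hx
      exact Pool.Agent.N918.EQ.rareIn_of_rarely hx
    filter_upwards [h1] with x hx
    exact hQ _ _ _ hx
  · have h1 : ∀ᵐ x : ι → ℝ, ∀ i, (∀ i, 1 < x i) →
        Rare Finset.range (fun n i => ⌊ξ i * x i ^ k n⌋) (B i) := by
      rw [ae_all_iff]
      intro i
      filter_upwards [(Pool.Agent.N24.KM.main _ (B i) (hB i)).2.2 k ξ hk hξ] with x hx hP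
      exact Pool.Agent.N918.EQ.rareIn_of_rarely (hx hP)
    filter_upwards [h1] with x hx hP
    exact hQ _ _ _ fun i => hx i hP
  · have h1 : ∀ᵐ w ∂(words W.m), ∀ i, Rare Finset.range (orb W v w) (B i) := by
      rw [ae_all_iff]
      intro i
      have h3 : ∀ᵐ w ∂(words W.m), Rarely (orb W v w) (B i) :=
        Pool.Agent.N24.RW.t_MAIN Pool.Agent.N24.RW.t_ORB Pool.Agent.N24.RW.t_ERG ι h2 W v hv (B i)
          (hB i)
      filter_upwards [h3] with w hw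
      exact Pool.Agent.N918.EQ.rareIn_of_rarely hw
    filter_upwards [h1] with w hw
    exact hQ _ _ _ hw
  · obtain ⟨⟨κ, hκ, h1⟩, ⟨κ', hκ', h2⟩⟩ := Pool.Agent.N666.TM.fl_well he hinj
    exact ⟨hQ _ _ _ fun i => Pool.Agent.N918.EQ.rareIn_of_well hκ h1 (hB i),
      hQ _ _ _ fun i => Pool.Agent.N918.EQ.rareIn_of_well hκ' h2 (hB i)⟩

/-- properties given by countably many sets which are small for all densities are robust -/
theorem robust_all [DecidableEq ι] [Nonempty ι] {I : Type} [Countable I]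
    (B : I → Set (ι → ℤ)) (hB : ∀ i, AllNull (B i))
    (Q : ∀ Ω : Type, (ℕ → Finset Ω) → (Ω → ι → ℤ) → Prop)
    (hQ : ∀ (Ω : Type) (S : ℕ → Finset Ω) (c : Ω → ι → ℤ), (∀ i, Rare S c (B i)) → Q Ω S c) :
    Robust Q := by
  have hdom : ∀ (Ω : Type) (S : ℕ → Finset Ω) (c : Ω → ι → ℤ), Dominated S c → Q Ω S c :=
    fun Ω S c hc => hQ Ω S c fun i => (hB i).2 Ω S c hc
  obtain ⟨h1, h2, h3, h4, h5⟩ := middle B (fun i => (hB i).1) Q hQ
  exact ⟨hdom, h1, h2, h3, h4, h5, hdom _ _ _ dominated_primes⟩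

/-- the vectors of primes are fully dominated -/
theorem fullyDominated_primes [DecidableEq ι] : FullyDominated (ι := ι) (primeBox ι) id := by
  classical
  refine ⟨20 ^ Fintype.card ι, Fintype.card ι, 1, one_pos, fun q hq0 _ a ε hε => ?_⟩
  have hφ : (0 : ℝ) < q.totient := by exact_mod_cast Nat.totient_pos.2 hq0
  have hqr : (0 : ℝ) < q := by exact_mod_cast hq0
  obtain ⟨H₀, hH₀⟩ := class_upper q hq0
  refine ⟨H₀, fun H hH => ?_⟩
  have h1 : {w : ι → ℤ | w ∈ primeBox ι H ∧ ∀ i, ((id w i : ℤ) : ZMod q) = a i} =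
      ((Fintype.piFinset fun i => ((Finset.range (H + 1)).filter
        (fun p : ℕ => p.Prime ∧ ((p : ℕ) : ZMod q) = a i)).map Nat.castEmbedding :
          Finset (ι → ℤ)) : Set (ι → ℤ)) := by
    ext w
    simp only [primeBox, primesTo, Set.mem_ofPred_eq, Fintype.mem_piFinset, Finset.mem_coe, Finset.mem_map, Finset.mem_filter,
      Finset.mem_range, Nat.castEmbedding_apply, id_eq]
    constructor
    · rintro ⟨h1, h2⟩ i
      obtain ⟨p, hp, hpw⟩ := h1 i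
      refine ⟨p, ⟨hp.1, hp.2, ?_⟩, hpw⟩
      have h3 := h2 i
      rw [← hpw] at h3
      simpa using h3
    · intro h
      refine ⟨fun i => ?_, fun i => ?_⟩
      · obtain ⟨p, hp, hpw⟩ := h i
        exact ⟨p, ⟨hp.1, hp.2.1⟩, hpw⟩
      · obtain ⟨p, hp, hpw⟩ := h i
        rw [← hpw, ← hp.2.2]
        simp
  rw [h1, Set.ncard_coe_finset, Fintype.card_piFinset, Nat.cast_prod]
  have h2 : ∏ i, ((((((Finset.range (H + 1)).filter
      (fun p : ℕ => p.Prime ∧ ((p : ℕ) : ZMod q) = a i)).map Nat.castEmbedding :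
        Finset ℤ)).card : ℕ) : ℝ) ≤ ∏ _i : ι, (20 / (q.totient : ℝ) * (primesTo H).card) := by
    refine Finset.prod_le_prod (fun i _ => Nat.cast_nonneg _) fun i _ => ?_
    rw [Finset.card_map]
    exact hH₀ H hH (a i)
  refine h2.trans ?_
  rw [Finset.prod_const, Finset.card_univ]
  have h3 : ((primeBox ι H).card : ℝ) = ((primesTo H).card : ℝ) ^ Fintype.card ι := by
    unfold primeBox
    rw [Fintype.card_piFinset]
    simp [Finset.card_map]
  rw [h3]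
  have h4 : (20 : ℝ) ^ Fintype.card ι * ((q : ℝ) / q.totient) ^ Fintype.card ι *
      ((q : ℝ) ^ Fintype.card ι)⁻¹ = (20 / (q.totient : ℝ)) ^ Fintype.card ι := by
    rw [div_pow, div_pow]
    field_simp
  rw [h4, mul_pow, add_mul]
  have h5 : 0 ≤ ε * ((primesTo H).card : ℝ) ^ Fintype.card ι := by positivity
  linarith

/-- equidistributed sequences are fully dominated -/
theorem fullyDominated_of_equi {S : ℕ → Finset ℕ} {c : ℕ → ι → ℤ}
    (h : Pool.Agent.N918.EQ.Equi S c) : FullyDominated S c := by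
  obtain ⟨M, hM, h⟩ := h
  refine ⟨1, 0, M, hM, fun q hq hqM a ε hε => ?_⟩
  obtain ⟨N₀, h1⟩ := h q hq hqM a ε hε
  refine ⟨N₀, fun N hN => ?_⟩
  have h2 := h1 N hN
  simpa using h2

/-- The property `Q` of a family of integral vectors `c w`, `w` in `Ω`, along finite sets `S N` is fully
robust:
(1) all fully dominated families have it;
(2) for Koksma sequences `f_{i,0}, f_{i,1}, ...` on `[a_i, b_i]` and almost all `x` in the box
`c n = (⌊f_{i,n}(x_i)⌋)_i` has it, along `{0, ..., N - 1}`;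
(3) for arbitrary real numbers `a_{i,n}` with `|a_{i,m} - a_{i,n}| ≥ δ > 0`, `m ≠ n`, and almost all `x`
`c n = (⌊a_{i,n} x_i⌋)_i` has it, along `{0, ..., N - 1}`;
(4) for different `k_n`, all `ξ_i ≠ 0` and almost all `x` with all `x_i > 1` `c n = (⌊ξ_i x_i ^ k_n⌋)_i` has
it, along `{0, ..., N - 1}`;
(5) for matrices `s_0, ..., s_m` in `SL_r(ℤ)`, `r ≥ 2`, which generate `SL_r(ℤ/q)` for all `q` prime to some
number, and every `v ≠ 0` the random orbit `c n = s_{w (n-1)} ... s_{w 0} v` has it for almost all sequences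
of letters `w`, along `{0, ..., N - 1}`;
(6) for generalised polynomials with different positive nonintegral leading exponents and positive leading
coefficients `c n = (⌊∑_{t ∈ F_i} a_{i,t} n ^ t⌋)_i` has it, along the integers and along the primes of
`(N, 2 N]`;
(7) the vectors whose coordinates are primes `≤ N` have it. -/
def FullyRobust [DecidableEq ι] (Q : ∀ Ω : Type, (ℕ → Finset Ω) → (Ω → ι → ℤ) → Prop) : Prop :=
  (∀ (Ω : Type) (S : ℕ → Finset Ω) (c : Ω → ι → ℤ), FullyDominated S c → Q Ω S c) ∧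
  (∀ (a b : ι → ℝ) (f : ι → ℕ → ℝ → ℝ), (∀ i, a i < b i) → (∀ i, Koksma (a i) (b i) (f i)) →
    ∀ᵐ x : ι → ℝ, (∀ i, x i ∈ Set.Icc (a i) (b i)) → Q ℕ Finset.range (fun n i => ⌊f i n (x i)⌋)) ∧
  (∀ (a : ι → ℕ → ℝ) (δ : ℝ), 0 < δ → (∀ i m n, m ≠ n → δ ≤ |a i m - a i n|) →
    ∀ᵐ x : ι → ℝ, Q ℕ Finset.range (fun n i => ⌊a i n * x i⌋)) ∧
  (∀ (k : ℕ → ℕ) (ξ : ι → ℝ), Function.Injective k → (∀ i, ξ i ≠ 0) →
    ∀ᵐ x : ι → ℝ, (∀ i, 1 < x i) → Q ℕ Finset.range (fun n i => ⌊ξ i * x i ^ k n⌋)) ∧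
  (2 ≤ Fintype.card ι → ∀ (W : Walk ι) (v : ι → ℤ), v ≠ 0 →
    ∀ᵐ w ∂(words W.m), Q ℕ Finset.range (orb W v w)) ∧
  (∀ (F : ι → Finset ℝ) (a : ι → ℝ → ℝ) (e : ι → ℝ),
    (∀ i, e i ∈ F i ∧ (∀ t ∈ F i, t ≤ e i) ∧ 0 < e i ∧ (∀ m : ℕ, e i ≠ m) ∧ 0 < a i (e i)) →
    Function.Injective e →
    Q ℕ (fun N => Finset.Ioc N (2 * N)) (fun n i => ⌊∑ t ∈ F i, a i t * (n : ℝ) ^ t⌋) ∧
    Q ℕ (fun N => (Finset.Ioc N (2 * N)).filter Nat.Prime)
      (fun n i => ⌊∑ t ∈ F i, a i t * (n : ℝ) ^ t⌋)) ∧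
  Q (ι → ℤ) (primeBox ι) id

/-- properties given by countably many fully null sets are fully robust -/
theorem fullyRobust_all [DecidableEq ι] [Nonempty ι] {I : Type} [Countable I]
    (B : I → Set (ι → ℤ)) (hB : ∀ i, FullNull (B i))
    (Q : ∀ Ω : Type, (ℕ → Finset Ω) → (Ω → ι → ℤ) → Prop)
    (hQ : ∀ (Ω : Type) (S : ℕ → Finset Ω) (c : Ω → ι → ℤ), (∀ i, Rare S c (B i)) → Q Ω S c) :
    FullyRobust Q := by
  have hdom : ∀ (Ω : Type) (S : ℕ → Finset Ω) (c : Ω → ι → ℤ), FullyDominated S c → Q Ω S c :=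
    fun Ω S c hc => hQ Ω S c fun i => (hB i).2 Ω S c hc
  obtain ⟨h1, h2, h3, h4, h5⟩ := middle B (fun i => (hB i).1) Q hQ
  exact ⟨hdom, h1, h2, h3, h4, h5, hdom _ _ _ fullyDominated_primes⟩

end

end Pool.Agent.Run7.h316.DN
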