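import Pool.Agent.Run7.h316.DN.Rob
import Pool.Agent.N455.PR.Rat
import Pool.Agent.TH783.CE.Thin

/-!
# Thin sets of number fields contain few primes, and few quotients of primes

The thin sets of a number field `K` contain the numbers `x_i` and `x_i / x_j` for few of the vectors `x` of every
dominated family. The reduction to `ℚ` is the one of `Pool.Agent.TH716.RK.hp_nf` (helper716) and
`Pool.Agent.N455.PR` (helper455), for rational instead of integral parameters.
-/

set_option autoImplicit false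

namespace Pool.Agent.Run7.h316.DN

open Polynomial
open Pool.Agent.Run7.h316.EQ
open Pool.Agent.TH716.RK Pool.Agent.H391R2
open Pool.Agent.TH783.CE (Thin)

section field

variable {K : Type} [Field K] [NumberField K]

/-- the trace coordinates of roots are integral; after `Pool.Agent.TH716.RK.exists_coord` (helper716) -/
theorem exists_coordQ (f : K[X][X]) (hf : f.Monic) (c : K) : ∃ G : ℚ[X][X], G.Monic ∧
    ∀ (t : ℚ) (x : K), f.evalEval (algebraMap ℚ K t) x = 0 →
      G.evalEval t (Algebra.trace ℚ K (c * x)) = 0 := by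
  classical
  let P : Type := {p : ℚ × K // f.evalEval (algebraMap ℚ K p.1) p.2 = 0}
  let φ : ℚ[X] →+* (P → ℂ) := RingHom.pi fun p : P => (algebraMap ℚ ℂ).comp
    (evalRingHom p.1.1)
  have hφ : ∀ q p, φ q p = (algebraMap ℚ ℂ) (q.eval p.1.1) := fun q p => rfl
  have hY : ∀ σ : K →ₐ[ℚ] ℂ, φ.IsIntegralElem (fun p : P => σ p.1.2) := by
    intro σ
    let ψ : K[X] →+* (P → ℂ) := RingHom.pi fun p : P => (σ : K →+* ℂ).comp
      (evalRingHom (algebraMap ℚ K p.1.1))
    have h1 : φ = ψ.comp (mapRingHom (algebraMap ℚ K)) := by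
      apply RingHom.ext
      intro q
      funext p
      change (algebraMap ℚ ℂ) (q.eval p.1.1) =
        σ ((q.map (algebraMap ℚ K)).eval (algebraMap ℚ K p.1.1))
      rw [eval_map, eval₂_at_apply, AlgHom.commutes]
    rw [h1]
    refine int_trans _ _ map_integral ⟨f, hf, ?_⟩
    funext p
    rw [ev_eval₂]
    have h3 : (Pi.evalRingHom (fun _ : P => ℂ) p).comp ψ = (σ : K →+* ℂ).comp
      (evalRingHom (algebraMap ℚ K p.1.1)) := rfl
    rw [h3]
    have h4 : eval₂ ((σ : K →+* ℂ).comp (evalRingHom (algebraMap ℚ K p.1.1))) (σ p.1.2) f =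
        σ (f.evalEval (algebraMap ℚ K p.1.1) p.1.2) := by
      rw [← eval₂_evalRingHom]
      exact (hom_eval₂ f (evalRingHom (algebraMap ℚ K p.1.1)) (σ : K →+* ℂ) p.1.2).symm
    rw [h4, p.2, map_zero]
    rfl
  have hc : ∀ σ : K →ₐ[ℚ] ℂ, φ.IsIntegralElem (fun _ : P => σ c) := by
    intro σ
    refine ⟨(minpoly ℚ c).map C, (minpoly.monic (Algebra.IsIntegral.isIntegral c)).map _, ?_⟩
    rw [eval₂_map]
    funext p
    rw [ev_eval₂]
    have h3 : (Pi.evalRingHom (fun _ : P => ℂ) p).comp (φ.comp C) = algebraMap ℚ ℂ :=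
      Subsingleton.elim _ _
    rw [h3]
    change aeval (σ c) (minpoly ℚ c) = 0
    rw [aeval_algHom_apply, minpoly.aeval, map_zero]
  have hs : φ.IsIntegralElem (fun p : P => ∑ σ : K →ₐ[ℚ] ℂ, σ c * σ p.1.2) := by
    let _ := φ.toAlgebra
    have : (fun p : P => ∑ σ : K →ₐ[ℚ] ℂ, σ c * σ p.1.2) =
        ∑ σ : K →ₐ[ℚ] ℂ, (fun _ : P => σ c) * (fun p : P => σ p.1.2) := by
      funext p
      simp
    rw [this]
    exact IsIntegral.sum _ fun σ _ => (hc σ).mul _ (hY σ)
  obtain ⟨G, hG, hG0⟩ := hs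
  refine ⟨G, hG, fun t x hx => ?_⟩
  have h5 := congrFun hG0 (⟨(t, x), hx⟩ : P)
  rw [ev_eval₂] at h5
  have h7 : (Pi.evalRingHom (fun _ : P => ℂ) ⟨(t, x), hx⟩).comp φ =
      (algebraMap ℚ ℂ).comp (evalRingHom t) := rfl
  have h8 : ∑ σ : K →ₐ[ℚ] ℂ, σ c * σ x = algebraMap ℚ ℂ (Algebra.trace ℚ K (c * x)) := by
    rw [trace_eq_sum_embeddings ℂ]
    exact Finset.sum_congr rfl fun σ _ => (map_mul σ c x).symm
  rw [h7, h8, ← hom_eval₂] at h5
  have h9 := (map_eq_zero (algebraMap ℚ ℂ)).1 h5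
  rwa [eval₂_evalRingHom] at h9

variable (K) in
/-- From a number field to `ℚ`; after `Pool.Agent.N455.PR.nf_to_rat` (helper455). -/
theorem nf_to_ratQ (f : K[X][X]) (hf : f.Monic)
    (hroot : ∀ g : K[X], f.eval g ≠ 0) :
    ∃ H : ℚ[X][X], H.Monic ∧ (∀ g : ℚ[X], H.eval g ≠ 0) ∧ ∃ F : Set ℚ, F.Finite ∧
      ∀ (t : ℚ) (x : K), f.evalEval (algebraMap ℚ K t) x = 0 →
        t ∈ F ∨ ∃ y : ℚ, H.evalEval t y = 0 := by
  classical
  let b := Module.finBasis ℚ K
  let n := Module.finrank ℚ K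
  have hnd := traceForm_nondegenerate ℚ K
  let d := LinearMap.BilinForm.dualBasis (Algebra.traceForm ℚ K) hnd b
  have hd : ∀ x : K, ∑ i, algebraMap ℚ K (Algebra.trace ℚ K (d i * x)) * b i = x := by
    intro x
    have h1 : ∀ i, Algebra.trace ℚ K (d i * x) = b.repr x i := by
      intro i
      have h2 : Algebra.trace ℚ K (d i * x) = Algebra.traceForm ℚ K (d i) x := rfl
      rw [h2]
      conv_lhs => rw [← b.sum_repr x]
      rw [map_sum]
      simp only [map_smul, smul_eq_mul]
      rw [Finset.sum_eq_single i]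
      · rw [LinearMap.BilinForm.apply_dualBasis_left, if_pos rfl, mul_one]
      · intro j _ hj
        rw [LinearMap.BilinForm.apply_dualBasis_left, if_neg hj, mul_zero]
      · intro h
        exact (h (Finset.mem_univ _)).elim
    simp only [h1]
    conv_rhs => rw [← b.sum_repr x]
    refine Finset.sum_congr rfl fun i _ => ?_
    rw [Algebra.smul_def]
  choose G hGm hG using fun i => exists_coordQ f hf (d i)
  choose H hH1 hH2 hH3 using fun i => exists_prod_multiset_X_sub_C_mul (G i)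
  have hHm : ∀ i, (H i).Monic := by
    intro i
    have h1 : (Multiset.map (fun a => X - C a) (G i).roots).prod.Monic :=
      monic_multiset_prod_of_monic _ _ fun a _ => monic_X_sub_C a
    exact h1.of_mul_monic_left (by rw [hH1 i]; exact hGm i)
  have hm : (∏ i, H i).Monic := monic_prod_of_monic _ _ fun i _ => hHm i
  have hr : ∀ g : ℚ[X], (∏ i, H i).eval g ≠ 0 := by
    intro g
    rw [eval_prod]
    refine Finset.prod_ne_zero_iff.2 fun i _ h => ?_
    have : g ∈ (H i).roots := (mem_roots (hHm i).ne_zero).2 h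
    rw [hH3 i] at this
    simp at this
  let cand : (∀ i : Fin n, {g // g ∈ (G i).roots.toFinset}) → K[X] := fun j =>
    ∑ i, (j i).1.map (algebraMap ℚ K) * C (b i)
  have hfin : {t : ℚ | ∃ j, (f.eval (cand j)).eval (algebraMap ℚ K t) = 0}.Finite := by
    rw [Set.ofPred_exists]
    refine Set.finite_iUnion fun j => ?_
    have h1 : {a : K | (f.eval (cand j)).IsRoot a}.Finite := by
      have := (f.eval (cand j)).roots.toFinset.finite_toSet
      refine this.subset fun a ha => ?_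
      rw [Finset.mem_coe, Multiset.mem_toFinset]
      exact (mem_roots (hroot _)).2 ha
    refine (h1.preimage (f := algebraMap ℚ K) (Set.injOn_of_injective
      (algebraMap ℚ K).injective)).subset fun t ht => ?_
    exact ht
  refine ⟨∏ i, H i, hm, hr, _, hfin, fun t x hx => ?_⟩
  by_cases ht' : ∃ y : ℚ, (∏ i, H i).evalEval t y = 0
  · exact Or.inr ht'
  left
  push Not at ht'
  have hex : ∀ i : Fin n, ∃ g : {g // g ∈ (G i).roots.toFinset},
      Algebra.trace ℚ K (d i * x) = g.1.eval t := by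
    intro i
    have h1 := hG i t x hx
    rw [← hH1 i, evalEval_mul] at h1
    have h2 : (H i).evalEval t (Algebra.trace ℚ K (d i * x)) ≠ 0 := by
      intro h0
      apply ht' (Algebra.trace ℚ K (d i * x))
      rw [evalEval_prod]
      exact Finset.prod_eq_zero (Finset.mem_univ i) h0
    have h3 := (mul_eq_zero.1 h1).resolve_right h2
    rw [← coe_evalEvalRingHom, map_multiset_prod, Multiset.map_map] at h3
    rw [Multiset.prod_eq_zero_iff, Multiset.mem_map] at h3
    obtain ⟨g, hg, hg'⟩ := h3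
    refine ⟨⟨g, Multiset.mem_toFinset.2 hg⟩, ?_⟩
    simp only [Function.comp_apply, coe_evalEvalRingHom] at hg'
    have h4 : evalEval t (Algebra.trace ℚ K (d i * x)) (X - C g) =
        Algebra.trace ℚ K (d i * x) - g.eval t := by
      simp [evalEval]
    rw [h4] at hg'
    exact sub_eq_zero.1 hg'
  choose j hj using hex
  have hxe : x = (cand j).eval (algebraMap ℚ K t) := by
    conv_lhs => rw [← hd x]
    simp only [cand, eval_finsetSum, eval_mul, eval_C]
    refine Finset.sum_congr rfl fun i _ => ?_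
    rw [hj i]
    congr 1
    rw [eval_map, eval₂_at_apply]
  refine ⟨j, ?_⟩
  rw [hxe] at hx
  rw [← hx, evalEval]
  have : f.eval (cand j) = f.eval₂ (RingHom.id _) (cand j) := rfl
  rw [← coe_evalRingHom (R := K)]
  rw [← eval₂_at_apply, ← eval₂_at_apply]
  simp

/-- From `ℚ` to `ℤ`, for rational parameters; after `Pool.Agent.N455.PR.rat_to_int` (helper455). -/
theorem rat_to_intQ (f : ℚ[X][X]) (hf : f.Monic) (hroot : ∀ g : ℚ[X], f.eval g ≠ 0) :
    ∃ F : ℤ[X][X], F.Monic ∧ (∀ g : ℤ[X], F.eval g ≠ 0) ∧ ∃ δ : ℤ,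
      ∀ (t x : ℚ), f.evalEval t x = 0 →
        (F.map (eval₂RingHom (Int.castRingHom ℚ) t)).eval ((δ : ℚ) * x) = 0 := by
  classical
  set φ : ℤ[X] →+* ℚ[X] := mapRingHom (Int.castRingHom ℚ) with hφ
  have hφinj : Function.Injective φ := map_injective _ Int.cast_injective
  have hclear : ∀ i, ∃ c : ℤ, c ≠ 0 ∧ C (c : ℚ) * f.coeff i ∈ φ.range := by
    intro i
    obtain ⟨c, P, hc, hP⟩ := exists_clear (R := ℤ) (f.coeff i)
    refine ⟨c, hc, P, ?_⟩
    rw [hφ, coe_mapRingHom]
    simpa using hP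
  choose c hc0 hc using hclear
  set δ : ℤ := ∏ i ∈ Finset.range (f.natDegree), c i with hδ
  have hδ0 : δ ≠ 0 := Finset.prod_ne_zero_iff.2 fun i _ => hc0 i
  have hδQ : (δ : ℚ) ≠ 0 := by exact_mod_cast hδ0
  have hCint : ∀ m : ℤ, C (m : ℚ) ∈ φ.range := fun m => ⟨C m, by simp [hφ]⟩
  have hlift : scaleRoots f (C (δ : ℚ)) ∈ lifts φ := by
    rw [lifts_iff_coeff_lifts]
    intro i
    rw [coeff_scaleRoots]
    change _ ∈ φ.range
    rcases lt_trichotomy i f.natDegree with hi | hi | hi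
    · have h1 : f.coeff i * C (δ : ℚ) ^ (f.natDegree - i) =
        (C ((∏ k ∈ (Finset.range f.natDegree).erase i, c k : ℤ) : ℚ)) * (C (c i : ℚ) * f.coeff i) *
          C (δ : ℚ) ^ (f.natDegree - i - 1) := by
        have h2 : (δ : ℚ) = ((∏ k ∈ (Finset.range f.natDegree).erase i, c k : ℤ) : ℚ) * c i := by
          rw [hδ, ← Finset.prod_erase_mul _ _ (Finset.mem_range.2 hi)]
          push_cast; rfl
        have h3 : C (δ : ℚ) ^ (f.natDegree - i) =
            C (δ : ℚ) * C (δ : ℚ) ^ (f.natDegree - i - 1) := by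
          rw [← pow_succ']; congr 1; omega
        have h4 : C (δ : ℚ) = C ((∏ k ∈ (Finset.range f.natDegree).erase i, c k : ℤ) : ℚ) *
            C (c i : ℚ) := by rw [← C_mul, ← h2]
        rw [h3]
        nth_rewrite 1 [h4]
        ring
      rw [h1]
      exact φ.range.mul_mem (φ.range.mul_mem (hCint _) (hc i)) (φ.range.pow_mem (hCint δ) _)
    · rw [hi, hf.coeff_natDegree, Nat.sub_self, pow_zero, mul_one]
      exact φ.range.one_mem
    · rw [coeff_eq_zero_of_natDegree_lt hi, zero_mul]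
      exact φ.range.zero_mem
  obtain ⟨F, hF, -, hFm⟩ := lifts_and_natDegree_eq_and_monic hlift
    ((monic_scaleRoots_iff _).2 hf)
  have hFroot : ∀ g : ℤ[X], F.eval g ≠ 0 := by
    intro g hg
    apply hroot (C (δ : ℚ)⁻¹ * φ g)
    have h1 : (scaleRoots f (C (δ : ℚ))).eval (φ g) = 0 := by
      rw [← hF, eval_map_apply, hg, map_zero]
    have h2 : φ g = C (δ : ℚ) * (C (δ : ℚ)⁻¹ * φ g) := by
      rw [← mul_assoc, ← C_mul, mul_inv_cancel₀ hδQ, C_1, one_mul]
    rw [h2, scaleRoots_eval_mul] at h1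
    have h3 : (C (δ : ℚ)) ^ f.natDegree ≠ 0 := pow_ne_zero _ (C_ne_zero.2 hδQ)
    exact (mul_eq_zero.1 h1).resolve_left h3
  refine ⟨F, hFm, hFroot, δ, fun t x hx => ?_⟩
  have h2 : F.map (eval₂RingHom (Int.castRingHom ℚ) t) =
      (scaleRoots f (C (δ : ℚ))).map (evalRingHom t) := by
    rw [← hF, Polynomial.map_map]
    congr 1
    ext q
    · simp [hφ]
    · simp [hφ]
  rw [h2, eval_map]
  have h3 := scaleRoots_eval₂_mul (p := f) (evalRingHom t) x (C (δ : ℚ))
  rw [coe_evalRingHom, eval_C] at h3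
  rw [h3, eval₂_evalRingHom, hx, mul_zero]

end field

section

variable {ι : Type}

/-- The denominator: `1` or `x_j`. -/
def den (x : ι → ℤ) (o : Option ι) : ℤ := o.elim 1 x

/-- The rational number `x_i` or `x_i / x_j`. -/
def arg (x : ι → ℤ) (i : ι) (o : Option ι) : ℚ := (x i : ℚ) / (den x o : ℚ)

/-- the polynomial which belongs to the denominator -/
noncomputable def yp (o : Option ι) : MvPolynomial ι ℤ := o.elim 1 MvPolynomial.X

/-- homogenisation of degree `n` -/
noncomputable def hom (i : ι) (o : Option ι) (p : ℤ[X]) (n : ℕ) : MvPolynomial ι ℤ :=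
  ∑ e ∈ Finset.range (n + 1), MvPolynomial.C (p.coeff e) * MvPolynomial.X i ^ e * yp o ^ (n - e)

open scoped Classical in
/-- all the other variables are one -/
noncomputable def rho (i : ι) : MvPolynomial ι ℤ →+* ℤ[X] :=
  MvPolynomial.eval₂Hom Polynomial.C fun j => if j = i then Polynomial.X else 1

theorem rho_yp (i : ι) (o : Option ι) (ho : o ≠ some i) : rho i (yp o) = 1 := by
  classical
  rcases o with _ | j
  · simp [yp]
  · have : j ≠ i := fun h => ho (by rw [h])
    simp [yp, rho, this]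

theorem rho_hom (i : ι) (o : Option ι) (ho : o ≠ some i) (p : ℤ[X]) (n : ℕ)
    (hp : p.natDegree ≤ n) : rho i (hom i o p n) = p := by
  classical
  unfold hom
  rw [map_sum]
  have h1 : ∀ e ∈ Finset.range (n + 1), rho i (MvPolynomial.C (p.coeff e) * MvPolynomial.X i ^ e *
      yp o ^ (n - e)) = Polynomial.C (p.coeff e) * Polynomial.X ^ e := by
    intro e _
    rw [map_mul, map_mul, map_pow, map_pow, rho_yp i o ho, one_pow, mul_one]
    simp [rho]
  rw [Finset.sum_congr rfl h1]
  exact (p.as_sum_range_C_mul_X_pow' (Nat.lt_succ_of_le hp)).symm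

theorem eval_yp (x : ι → ℤ) (o : Option ι) : MvPolynomial.eval x (yp o) = den x o := by
  rcases o with _ | j
  · simp [yp, den]
  · simp [yp, den]

theorem eval_hom (x : ι → ℤ) (i : ι) (o : Option ι) (hx : den x o ≠ 0) (p : ℤ[X]) (n : ℕ)
    (hp : p.natDegree ≤ n) : ((MvPolynomial.eval x (hom i o p n) : ℤ) : ℚ) =
      (den x o : ℚ) ^ n * p.eval₂ (Int.castRingHom ℚ) (arg x i o) := by
  have hx' : (den x o : ℚ) ≠ 0 := Int.cast_ne_zero.2 hx
  unfold hom
  rw [map_sum, Int.cast_sum, eval₂_eq_sum_range' _ (Nat.lt_succ_of_le hp), Finset.mul_sum]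
  refine Finset.sum_congr rfl fun e he => ?_
  have hen : e ≤ n := Nat.lt_succ_iff.1 (Finset.mem_range.1 he)
  rw [map_mul, map_mul, map_pow, map_pow, eval_yp, MvPolynomial.eval_C, MvPolynomial.eval_X]
  push_cast
  unfold arg
  rw [div_pow, Int.coe_castRingHom]
  have h1 : (den x o : ℚ) ^ n = (den x o : ℚ) ^ (n - e) * (den x o : ℚ) ^ e := by
    rw [← pow_add]
    congr 1
    omega
  rw [h1]
  field_simp

end

section

variable {ι : Type} [Fintype ι]

/-- **Thin sets contain `x_i / x_j` only for a very null set of `x`.** -/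
theorem very_frac (i : ι) (o : Option ι) (ho : o ≠ some i) (f : ℚ[X][X]) (hf : f.Monic)
    (hroot : ∀ g, f.eval g ≠ 0) :
    VeryNull {x : ι → ℤ | den x o ≠ 0 ∧ ∃ z : ℚ, f.evalEval (arg x i o) z = 0} := by
  classical
  obtain ⟨F, hFm, hFr, δ, hF⟩ := rat_to_intQ f hf hroot
  set d : ℕ := F.natDegree with hd
  set m : ℕ := (Finset.range d).sup fun k => (F.coeff k).natDegree with hm
  have hdeg : ∀ k, k ≤ d → (F.coeff k).natDegree ≤ m * (d - k) := by
    intro k hk
    rcases hk.lt_or_eq with h | h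
    · have h1 : (F.coeff k).natDegree ≤ m :=
        Finset.le_sup (f := fun k => (F.coeff k).natDegree) (Finset.mem_range.2 h)
      refine h1.trans ?_
      exact Nat.le_mul_of_pos_right _ (by omega)
    · rw [h, hd, hFm.coeff_natDegree, natDegree_one]
      exact Nat.zero_le _
  set G : (MvPolynomial ι ℤ)[X] :=
    ∑ k ∈ Finset.range (d + 1), C (hom i o (F.coeff k) (m * (d - k))) * X ^ k with hG
  have hGd : G.natDegree ≤ d := by
    refine natDegree_sum_le_of_forall_le _ _ fun k hk => ?_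
    exact (natDegree_C_mul_X_pow_le _ _).trans (Nat.lt_succ_iff.1 (Finset.mem_range.1 hk))
  have hGc : G.coeff d = 1 := by
    rw [hG, finsetSum_coeff, Finset.sum_eq_single d]
    · rw [coeff_C_mul_X_pow, if_pos rfl, Nat.sub_self, mul_zero]
      have h1 : F.coeff d = 1 := hFm.coeff_natDegree
      rw [h1]
      simp [hom]
    · intro k _ hk
      rw [coeff_C_mul_X_pow, if_neg (Ne.symm hk)]
    · intro h
      exact absurd (Finset.mem_range.2 (Nat.lt_succ_self d)) h
  have hGm : G.Monic := monic_of_natDegree_le_of_coeff_eq_one d hGd hGc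
  have hGmap : G.map (rho i) = F := by
    rw [hG, Polynomial.map_sum]
    conv_rhs => rw [F.as_sum_range_C_mul_X_pow]
    refine Finset.sum_congr rfl fun k hk => ?_
    rw [Polynomial.map_mul, Polynomial.map_pow, map_X, map_C, rho_hom i o ho _ _
      (hdeg k (Nat.lt_succ_iff.1 (Finset.mem_range.1 hk)))]
  have hGroot : ∀ a, G.eval a ≠ 0 := by
    intro a ha
    apply hFr (rho i a)
    have h1 := congrArg (rho i) ha
    rw [map_zero, ← Polynomial.eval_map_apply, hGmap] at h1
    exact h1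
  refine VeryNull.mono ?_ (hit_eval G hGm hGroot)
  rintro x ⟨hx, z, hz⟩
  have hx' : (den x o : ℚ) ≠ 0 := Int.cast_ne_zero.2 hx
  have h1 := hF _ _ hz
  -- the integral root
  set y : ℚ := (den x o : ℚ) with hy
  have h2 : ((G.map (MvPolynomial.eval x)).map (Int.castRingHom ℚ)).eval (y ^ m * (δ * z)) = 0 := by
    have h3 : ((G.map (MvPolynomial.eval x)).map (Int.castRingHom ℚ)).eval (y ^ m * (δ * z)) =
        y ^ (m * d) * (F.map (eval₂RingHom (Int.castRingHom ℚ) (arg x i o))).eval (δ * z) := by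
      rw [hG, Polynomial.map_sum, Polynomial.map_sum, eval_finsetSum]
      conv_rhs => rw [F.as_sum_range_C_mul_X_pow, Polynomial.map_sum, eval_finsetSum,
        Finset.mul_sum]
      refine Finset.sum_congr rfl fun k hk => ?_
      have hk' : k ≤ d := Nat.lt_succ_iff.1 (Finset.mem_range.1 hk)
      rw [Polynomial.map_mul, Polynomial.map_mul, Polynomial.map_pow, Polynomial.map_pow, map_X,
        map_X, map_C, map_C, eval_mul, eval_C, eval_pow, eval_X, Polynomial.map_mul,
        Polynomial.map_pow, map_X, map_C, eval_mul, eval_C, eval_pow, eval_X, eq_intCast,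
        eval_hom x i o hx _ _ (hdeg k hk'), coe_eval₂RingHom, mul_pow, ← pow_mul]
      have h4 : y ^ (m * d) = y ^ (m * (d - k)) * y ^ (m * k) := by
        rw [← pow_add, ← mul_add]
        congr 2
        omega
      rw [h4]
      ring
    rw [h3, h1, mul_zero]
  have h4 : IsIntegral ℤ (y ^ m * (δ * z)) := by
    refine ⟨G.map (MvPolynomial.eval x), hGm.map _, ?_⟩
    rw [← eval_map]
    exact h2
  obtain ⟨a, ha⟩ := IsIntegrallyClosed.isIntegral_iff.1 h4
  refine ⟨a, ?_⟩
  rw [← ha] at h2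
  have h5 : (Int.castRingHom ℚ) a = algebraMap ℤ ℚ a := rfl
  rw [← h5, eval_map_apply] at h2
  simpa using h2

/-- a hyperplane -/
theorem very_val (i : ι) (m : ℤ) : VeryNull {c : ι → ℤ | c i = m} := by
  classical
  refine veryNull_of_tests (C := 2) (by norm_num) fun N₀ => ?_
  obtain ⟨p, hpN, hp⟩ := Nat.exists_infinite_primes N₀
  have hF : Fact p.Prime := ⟨hp⟩
  refine ⟨p, hpN, hp, {x : ι → ZMod p | x i ≠ (m : ZMod p)}, ?_, ?_⟩
  · have h1 : {x : ι → ZMod p | x i = (m : ZMod p)}.ncard ≤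
        {x : ι → ZMod p | x i ≠ (m : ZMod p)}.ncard := by
      refine Set.ncard_le_ncard_of_injOn (fun x => x + Pi.single i 1) ?_ ?_ (Set.toFinite _)
      · intro x hx
        have hx' : x i = (m : ZMod p) := hx
        have h2 : (x + Pi.single i (1 : ZMod p) : ι → ZMod p) i ≠ (m : ZMod p) := by
          rw [Pi.add_apply, Pi.single_eq_same, hx']
          simp
        exact h2
      · intro x _ y _ h
        exact add_right_cancel h
    have h2 : {x : ι → ZMod p | x i = (m : ZMod p)}.ncard +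
        {x : ι → ZMod p | x i ≠ (m : ZMod p)}.ncard = p ^ Fintype.card ι := by
      have h3 : {x : ι → ZMod p | x i ≠ (m : ZMod p)} = {x : ι → ZMod p | x i = (m : ZMod p)}ᶜ := rfl
      rw [h3, Set.ncard_add_ncard_compl, Nat.card_eq_fintype_card, Fintype.card_fun, ZMod.card]
    omega
  · intro c hc h
    have hc' : c i = m := hc
    apply h
    show ((c i : ℤ) : ZMod p) = m
    rw [hc']

/-- the bad sets for the thin sets of all number fields -/
def BadF (ι : Type) (q : (ι × Option ι) × ℚ[X][X]) : Set (ι → ℤ) :=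
  {x : ι → ℤ | (q.1.2 ≠ some q.1.1 ∧ q.2.Monic ∧ ∀ g, q.2.eval g ≠ 0) ∧
    (den x q.1.2 = 0 ∨ ∃ z : ℚ, q.2.evalEval (arg x q.1.1 q.1.2) z = 0)}

theorem very_badF (q : (ι × Option ι) × ℚ[X][X]) : VeryNull (BadF ι q) := by
  obtain ⟨⟨i, o⟩, f⟩ := q
  by_cases h : o ≠ some i ∧ f.Monic ∧ ∀ g, f.eval g ≠ 0
  · have h1 := very_frac i o h.1 f h.2.1 h.2.2
    have h2 : VeryNull {x : ι → ℤ | den x o = 0} := by
      rcases o with _ | j
      · refine VeryNull.mono ?_ veryNull_empty
        intro x hx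
        exact absurd hx (by simp [den])
      · exact very_val j 0
    refine VeryNull.mono ?_ (VeryNull.union h2 h1)
    rintro x ⟨-, hx⟩
    by_cases h0 : den x o = 0
    · exact Or.inl h0
    · exact Or.inr ⟨h0, hx.resolve_left h0⟩
  · exact VeryNull.mono (fun x hx => absurd hx.1 h) veryNull_empty

theorem badF_countable : Countable ((ι × Option ι) × ℚ[X][X]) := by
  have hc1 : Countable ℚ[X] := by
    rw [← Cardinal.mk_le_aleph0_iff]
    exact Polynomial.cardinalMk_le_max.trans (by simp)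
  have hc2 : Countable ℚ[X][X] := by
    rw [← Cardinal.mk_le_aleph0_iff]
    exact Polynomial.cardinalMk_le_max.trans (by simp)
  infer_instance

end

section

variable {ι : Type}

theorem Rare.union' {Ω : Type} {S : ℕ → Finset Ω} {c : Ω → ι → ℤ} {A B : Set (ι → ℤ)}
    (hA : Rare S c A) (hB : Rare S c B) : Rare S c (A ∪ B) := by
  refine rare_of_udf fun ε hε => ?_
  have h := (udf_of_rare hA (half_pos hε)).union (udf_of_rare hB (half_pos hε))
  rwa [add_halves] at h

theorem Rare.biUnion' {Ω : Type} {S : ℕ → Finset Ω} {c : Ω → ι → ℤ} {J : Type} {s : Set J}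
    (hs : s.Finite) {f : J → Set (ι → ℤ)} (h : ∀ j ∈ s, Rare S c (f j)) :
    Rare S c (⋃ j ∈ s, f j) := by
  induction s, hs using Set.Finite.induction_on with
  | empty =>
    refine rare_of_udf fun ε hε => ?_
    simpa using UDF.empty (S := S) (c := c) hε
  | @insert a s ha hs ih =>
    rw [Set.biUnion_insert]
    exact Rare.union' (h a (Set.mem_insert _ _)) (ih fun j hj => h j (Set.mem_insert_of_mem _ hj))

/-- the polynomial `T ^ 2 - (X - t)` has a root at `t` only -/
theorem pt_poly (t : ℚ) : (X ^ 2 - C (X - C t) : ℚ[X][X]).Monic ∧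
    (∀ g : ℚ[X], (X ^ 2 - C (X - C t) : ℚ[X][X]).eval g ≠ 0) ∧
    (X ^ 2 - C (X - C t) : ℚ[X][X]).evalEval t 0 = 0 := by
  refine ⟨?_, ?_, ?_⟩
  · exact monic_X_pow_sub_C _ two_ne_zero
  · intro g hg
    rw [eval_sub, eval_pow, eval_X, eval_C, sub_eq_zero] at hg
    have h1 := congrArg natDegree hg
    rw [natDegree_pow, natDegree_X_sub_C] at h1
    omega
  · simp [evalEval]

/-- **Thin sets of number fields.** -/
theorem rare_thin {Ω : Type} {S : ℕ → Finset Ω} {c : Ω → ι → ℤ} (h : ∀ q, Rare S c (BadF ι q))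
    (i : ι) (o : Option ι) (ho : o ≠ some i) (K : Type) [Field K] [NumberField K] {D : Set K}
    (hD : Thin D) :
    Rare S c {x : ι → ℤ | den x o = 0 ∨ algebraMap ℚ K (arg x i o) ∈ D} := by
  obtain ⟨A, hA, G, hG, hroot, hcov⟩ := hD
  obtain ⟨H, hH, hHr, F, hF, hF'⟩ := nf_to_ratQ K G hG hroot
  have hA' : {t : ℚ | algebraMap ℚ K t ∈ A}.Finite :=
    hA.preimage (algebraMap ℚ K).injective.injOn
  refine Rare.mono ?_ (Rare.union' (Rare.biUnion' (hA'.union hF) fun t _ =>
    h ((i, o), X ^ 2 - C (X - C t))) (h ((i, o), H)))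
  intro x hx
  have hpt : ∀ t : ℚ, (t ∈ {t : ℚ | algebraMap ℚ K t ∈ A} ∪ F) → arg x i o = t →
      x ∈ ⋃ j ∈ {t : ℚ | algebraMap ℚ K t ∈ A} ∪ F, BadF ι ((i, o), X ^ 2 - C (X - C j)) := by
    intro t ht hxt
    refine Set.mem_biUnion ht ?_
    obtain ⟨g1, g2, g3⟩ := pt_poly t
    exact ⟨⟨ho, g1, g2⟩, Or.inr ⟨0, by rw [show arg x ((i, o), X ^ 2 - C (X - C t)).1.1
      ((i, o), X ^ 2 - C (X - C t)).1.2 = t from hxt]; exact g3⟩⟩
  by_cases h0 : den x o = 0
  · exact Or.inr ⟨⟨ho, hH, hHr⟩, Or.inl h0⟩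
  · rcases hcov _ (hx.resolve_left h0) with h1 | ⟨y, hy⟩
    · exact Or.inl (hpt _ (Or.inl h1) rfl)
    · rcases hF' _ y hy with h1 | ⟨z, hz⟩
      · exact Or.inl (hpt _ (Or.inr h1) rfl)
      · exact Or.inr ⟨⟨ho, hH, hHr⟩, Or.inr ⟨z, hz⟩⟩

end

end Pool.Agent.Run7.h316.DN
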