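import Pool.Agent.N455.HT.Avg

/-!
# Infinitely many primes with a lower bound for a combination of numbers of roots

Compare `Pool.Agent.N455.HT.exists_sum_ge` (helper455).
-/

set_option autoImplicit false

open Filter Topology NumberField IsDedekindDomain Pool.Agent.H921R2.TatePole Pool.Agent.N455.HT

namespace Pool.Agent.Run7.h316.DN

/-- **Infinitely many primes.** -/
theorem exists_ge (L₁ L₂ : Type) [Field L₁] [NumberField L₁] [Field L₂] [NumberField L₂]
    {a b B : ℝ} (hb : 0 ≤ b) (ha : b < a) (hB : 0 ≤ B) (p₀ : ℕ) :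
    ∃ p : ℕ, p.Prime ∧ p₀ ≤ p ∧ b < 1 - (hc (𝓞 L₁) p : ℝ) + a * hc (𝓞 L₂) p -
      B * (p : ℝ) ^ (-(1 / 2 : ℝ)) := by
  classical
  by_contra hcon
  push Not at hcon
  have ha0 : 0 < a := lt_of_le_of_lt hb ha
  -- the small primes
  have hsm : {p : Nat.Primes | (p : ℕ) < p₀}.Finite :=
    Set.Finite.preimage (Nat.Primes.coe_nat_injective.injOn) (Set.finite_lt_nat p₀)
  set K : ℝ := 1 + a * Module.finrank ℚ L₂ with hK
  have hK0 : 0 ≤ K := by rw [hK]; positivity
  set e : Nat.Primes → ℝ := fun p => if (p : ℕ) < p₀ then K else 0 with he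
  have he0 : ∀ p, 0 ≤ e p := by
    intro p
    rw [he]
    dsimp only
    split_ifs
    · exact hK0
    · exact le_rfl
  have hes : Summable e := by
    refine summable_of_finite_support (hsm.subset ?_)
    intro p hp
    by_contra h2
    apply hp
    rw [he]
    dsimp only
    exact if_neg h2
  -- the inequality
  have hkey : ∀ x : ℝ, 1 < x → W x - ∑' p : Nat.Primes, (hc (𝓞 L₁) p : ℝ) * w x p +
      a * ∑' p : Nat.Primes, (hc (𝓞 L₂) p : ℝ) * w x p - B * C3 ≤ b * W x + ∑' p, e p := by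
    intro x hx
    have s1 := hc_summable L₁ hx
    have s2 := hc_summable L₂ hx
    have s3 := half_summable hx
    have s4 := w_summable hx
    have s6 : Summable fun p : Nat.Primes => e p * w x p :=
      Summable.of_nonneg_of_le (fun p => mul_nonneg (he0 p) (w_nonneg x p))
        (fun p => mul_le_of_le_one_right (he0 p) (w_le_one hx p)) hes
    have h2 : ∀ p : Nat.Primes, w x p - (hc (𝓞 L₁) p : ℝ) * w x p + a * ((hc (𝓞 L₂) p : ℝ) * w x p) -
        B * (((p : ℕ) : ℝ) ^ (-(1 / 2 : ℝ)) * w x p) ≤ b * w x p + e p * w x p := by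
      intro p
      have hw := w_nonneg x p
      have h3 : 1 - (hc (𝓞 L₁) p : ℝ) + a * hc (𝓞 L₂) p - B * ((p : ℕ) : ℝ) ^ (-(1 / 2 : ℝ)) ≤
          b + e p := by
        by_cases hp : p₀ ≤ (p : ℕ)
        · have h4 := hcon p p.prop hp
          have h6 := he0 p
          linarith
        · have h4 : e p = K := if_pos (not_le.1 hp)
          have h6 := hc_le L₂ p
          have h7 : (0 : ℝ) ≤ (hc (𝓞 L₁) p : ℝ) := by positivity
          have h8 : 0 ≤ B * ((p : ℕ) : ℝ) ^ (-(1 / 2 : ℝ)) := by positivity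
          have h9 : a * (hc (𝓞 L₂) p : ℝ) ≤ a * Module.finrank ℚ L₂ :=
            mul_le_mul_of_nonneg_left h6 ha0.le
          rw [h4, hK]
          linarith
      calc _ = (1 - (hc (𝓞 L₁) p : ℝ) + a * hc (𝓞 L₂) p -
            B * ((p : ℕ) : ℝ) ^ (-(1 / 2 : ℝ))) * w x p := by ring
        _ ≤ (b + e p) * w x p := mul_le_mul_of_nonneg_right h3 hw
        _ = _ := by ring
    have h4 := Summable.tsum_le_tsum h2 (((s4.sub s1).add (s2.mul_left a)).sub (s3.mul_left B))
      ((s4.mul_left b).add s6)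
    rw [Summable.tsum_sub ((s4.sub s1).add (s2.mul_left a)) (s3.mul_left B),
      Summable.tsum_add (s4.sub s1) (s2.mul_left a), Summable.tsum_sub s4 s1, tsum_mul_left,
      tsum_mul_left, Summable.tsum_add (s4.mul_left b) s6, tsum_mul_left] at h4
    have h6 : ∑' p : Nat.Primes, e p * w x p ≤ ∑' p, e p :=
      Summable.tsum_le_tsum (fun p => mul_le_of_le_one_right (he0 p) (w_le_one hx p)) s6 hes
    have h7 : ∑' p : Nat.Primes, ((p : ℕ) : ℝ) ^ (-(1 / 2 : ℝ)) * w x p ≤ C3 :=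
      Summable.tsum_le_tsum (half_le hx) s3 (summable_primes_rpow (by norm_num))
    have h8 : B * ∑' p : Nat.Primes, ((p : ℕ) : ℝ) ^ (-(1 / 2 : ℝ)) * w x p ≤ B * C3 :=
      mul_le_mul_of_nonneg_left h7 hB
    have h9 : ∑' p : Nat.Primes, w x p = W x := rfl
    rw [h9] at h4
    linarith
  -- the limit
  obtain ⟨C₁, hC₁⟩ := hom_sum_bdd L₁
  obtain ⟨C₂, hC₂⟩ := hom_sum_bdd L₂
  have hab : 0 < a - b := by linarith
  have hW := W_tendsto.eventually_gt_atTop
    ((∑' p, e p + B * C3 + C₁ + a * C₂) / (a - b))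
  obtain ⟨x, hx1, hx2, hx3, hx⟩ := (hC₁.and (hC₂.and (hW.and self_mem_nhdsWithin))).exists
  have hk := hkey x hx
  have b1 := (abs_le.1 hx1).2
  have b2 := (abs_le.1 hx2).1
  rw [div_lt_iff₀ hab] at hx3
  have b3 : a * (W x - C₂) ≤ a * ∑' p : Nat.Primes, (hc (𝓞 L₂) p : ℝ) * w x p :=
    mul_le_mul_of_nonneg_left (by linarith) ha0.le
  nlinarith

end Pool.Agent.Run7.h316.DN
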