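import Pool.Agent.Run7.h316.DN.Hit
import Pool.Agent.Run7.h316.EQ.Typ
import Pool.Agent.N891.OR.DensM
import Pool.Agent.N938.TD.Den
import Pool.Agent.N455.TX.Sm
import Pool.Agent.N24.RW.All

/-!
# Families of integral vectors as densities

A family `c w`, `w` in `Ω`, dominated along finite sets `S N`, gives an upper density of sets of integral
vectors. It satisfies the axioms of the abstract densities of `Pool.Agent.N938.TD` (helper938) and
`Pool.Agent.N455.TX` (helper455).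
-/

set_option autoImplicit false
set_option linter.unusedSectionVars false

namespace Pool.Agent.Run7.h316.DN

open Pool.Agent.Run7.h316.EQ Pool.Agent.N455.HT
open Pool.Agent.N24.RW (ProNull)

section

variable {ι : Type} [Fintype ι] {Ω : Type}

/-- the upper density of `{w : c w ∈ B}` along the sets `S N` is at most `ε` -/
def UDF (S : ℕ → Finset Ω) (c : Ω → ι → ℤ) (ε : ℝ) (B : Set (ι → ℤ)) : Prop :=
  ∀ δ : ℝ, 0 < δ → ∃ N₀ : ℕ, ∀ N : ℕ, N₀ ≤ N →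
    (({w : Ω | w ∈ S N ∧ c w ∈ B}.ncard : ℕ) : ℝ) ≤ (ε + δ) * (S N).card

variable {S : ℕ → Finset Ω} {c : Ω → ι → ℤ}

omit [Fintype ι] in
theorem UDF.mono {ε : ℝ} {A B : Set (ι → ℤ)} (h : UDF S c ε B) (hAB : A ⊆ B) : UDF S c ε A := by
  intro δ hδ
  obtain ⟨N₀, h1⟩ := h δ hδ
  refine ⟨N₀, fun N hN => le_trans ?_ (h1 N hN)⟩
  refine Nat.cast_le.2 (Set.ncard_le_ncard ?_ ((S N).finite_toSet.subset fun n hn => hn.1))
  rintro n ⟨h5, h6⟩
  exact ⟨h5, hAB h6⟩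

omit [Fintype ι] in
theorem UDF.le {ε ε' : ℝ} {B : Set (ι → ℤ)} (hε : ε ≤ ε') (h : UDF S c ε B) : UDF S c ε' B := by
  intro δ hδ
  obtain ⟨N₀, h1⟩ := h δ hδ
  refine ⟨N₀, fun N hN => (h1 N hN).trans ?_⟩
  gcongr

omit [Fintype ι] in
theorem UDF.empty {ε : ℝ} (hε : 0 < ε) : UDF S c ε (∅ : Set (ι → ℤ)) := by
  intro δ hδ
  refine ⟨0, fun N _ => ?_⟩
  have h1 : {w : Ω | w ∈ S N ∧ c w ∈ (∅ : Set (ι → ℤ))} = ∅ := by
    ext w
    simp
  rw [h1, Set.ncard_empty, Nat.cast_zero]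
  positivity

omit [Fintype ι] in
theorem UDF.union {ε ε' : ℝ} {A B : Set (ι → ℤ)} (hA : UDF S c ε A) (hB : UDF S c ε' B) :
    UDF S c (ε + ε') (A ∪ B) := by
  intro δ hδ
  obtain ⟨N₁, h1⟩ := hA (δ / 2) (by positivity)
  obtain ⟨N₂, h2⟩ := hB (δ / 2) (by positivity)
  refine ⟨max N₁ N₂, fun N hN => ?_⟩
  have h3 := h1 N ((le_max_left _ _).trans hN)
  have h4 := h2 N ((le_max_right _ _).trans hN)
  have h5 : {w : Ω | w ∈ S N ∧ c w ∈ A ∪ B} ⊆
      {w : Ω | w ∈ S N ∧ c w ∈ A} ∪ {w : Ω | w ∈ S N ∧ c w ∈ B} := by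
    rintro w ⟨hw, hAB | hAB⟩
    · exact Or.inl ⟨hw, hAB⟩
    · exact Or.inr ⟨hw, hAB⟩
  have h6 : ({w : Ω | w ∈ S N ∧ c w ∈ A ∪ B}.ncard : ℝ) ≤
      ({w : Ω | w ∈ S N ∧ c w ∈ A}.ncard : ℝ) + ({w : Ω | w ∈ S N ∧ c w ∈ B}.ncard : ℝ) := by
    have h7 := (Set.ncard_le_ncard h5 (((S N).finite_toSet.subset fun n hn => hn.1).union
      ((S N).finite_toSet.subset fun n hn => hn.1))).trans (Set.ncard_union_le _ _)
    exact_mod_cast h7
  refine h6.trans ?_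
  have h8 : (ε + ε' + δ) * ((S N).card : ℝ) =
      (ε + δ / 2) * (S N).card + (ε' + δ / 2) * (S N).card := by ring
  rw [h8]
  exact add_le_add h3 h4

omit [Fintype ι] in
/-- density zero -/
theorem rare_of_udf {B : Set (ι → ℤ)} (h : ∀ ε : ℝ, 0 < ε → UDF S c ε B) : Rare S c B := by
  intro ε hε
  obtain ⟨N₀, h1⟩ := h (ε / 2) (by positivity) (ε / 2) (by positivity)
  exact ⟨N₀, fun N hN => by simpa using h1 N hN⟩

omit [Fintype ι] in
theorem udf_of_rare {B : Set (ι → ℤ)} (h : Rare S c B) {ε : ℝ} (hε : 0 < ε) : UDF S c ε B := by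
  intro δ hδ
  obtain ⟨N₀, h1⟩ := h ε hε
  refine ⟨N₀, fun N hN => (h1 N hN).trans ?_⟩
  gcongr
  linarith

/-- the proportion of each class modulo `q` -/
def DomAt (S : ℕ → Finset Ω) (c : Ω → ι → ℤ) (C : ℝ) (A q : ℕ) : Prop :=
  ∀ (a : ι → ZMod q) (ε : ℝ), 0 < ε → ∃ N₀ : ℕ, ∀ N : ℕ, N₀ ≤ N →
    (({w : Ω | w ∈ S N ∧ ∀ i, ((c w i : ℤ) : ZMod q) = a i}.ncard : ℕ) : ℝ) ≤
      (C * ((q : ℝ) / q.totient) ^ A * ((q : ℝ) ^ Fintype.card ι)⁻¹ + ε) * (S N).card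

/-- sets of residue classes -/
theorem udf_of_domAt {C : ℝ} {A q : ℕ} (hq : 0 < q) (h : DomAt S c C A q) (B : Set (ι → ℤ)) :
    UDF S c (((im q B).ncard : ℝ) *
      (C * ((q : ℝ) / q.totient) ^ A * ((q : ℝ) ^ Fintype.card ι)⁻¹)) B := by
  classical
  have : NeZero q := ⟨hq.ne'⟩
  intro δ hδ
  have hIf : (im q B).Finite := Set.toFinite _
  have hδ' : (0 : ℝ) < δ / ((im q B).ncard + 1) := by positivity
  choose N₀ hN₀ using fun a : ι → ZMod q => h a (δ / ((im q B).ncard + 1)) hδ'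
  refine ⟨Finset.univ.sup N₀, fun N hN => ?_⟩
  have hsub : {w : Ω | w ∈ S N ∧ c w ∈ B} ⊆
      ⋃ a ∈ hIf.toFinset, {w : Ω | w ∈ S N ∧ ∀ i, ((c w i : ℤ) : ZMod q) = a i} := by
    intro n hn
    rw [Set.mem_iUnion₂]
    refine ⟨fun i => ((c n i : ℤ) : ZMod q), ?_, hn.1, fun i => rfl⟩
    rw [Set.Finite.mem_toFinset]
    exact ⟨_, hn.2, rfl⟩
  have hfin : (⋃ a ∈ hIf.toFinset,
      {w : Ω | w ∈ S N ∧ ∀ i, ((c w i : ℤ) : ZMod q) = a i}).Finite := by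
    refine (S N).finite_toSet.subset ?_
    intro n hn
    rw [Set.mem_iUnion₂] at hn
    obtain ⟨a, _, hn⟩ := hn
    exact hn.1
  have h3 := (Set.ncard_le_ncard hsub hfin).trans
    (Finset.set_ncard_biUnion_le hIf.toFinset
      (fun a => {w : Ω | w ∈ S N ∧ ∀ i, ((c w i : ℤ) : ZMod q) = a i}))
  set κ : ℝ := C * ((q : ℝ) / q.totient) ^ A * ((q : ℝ) ^ Fintype.card ι)⁻¹ with hκ
  have h4 : (({w : Ω | w ∈ S N ∧ c w ∈ B}.ncard : ℕ) : ℝ) ≤
      ∑ a ∈ hIf.toFinset, (κ + δ / ((im q B).ncard + 1)) * (S N).card := by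
    have h3' : (({w : Ω | w ∈ S N ∧ c w ∈ B}.ncard : ℕ) : ℝ) ≤ ∑ a ∈ hIf.toFinset,
        (({w : Ω | w ∈ S N ∧ ∀ i, ((c w i : ℤ) : ZMod q) = a i}.ncard : ℕ) : ℝ) := by
      exact_mod_cast h3
    refine le_trans h3' (Finset.sum_le_sum fun a _ => ?_)
    exact hN₀ a N ((Finset.le_sup (Finset.mem_univ a)).trans hN)
  refine h4.trans ?_
  rw [Finset.sum_const, nsmul_eq_mul, ← Set.ncard_eq_toFinset_card _ hIf, ← mul_assoc]
  refine mul_le_mul_of_nonneg_right ?_ (Nat.cast_nonneg _)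
  have h6 : ((im q B).ncard : ℝ) * (δ / ((im q B).ncard + 1)) ≤ δ := by
    rw [mul_div_assoc', div_le_iff₀ (by positivity)]
    nlinarith [hδ, (Nat.cast_nonneg (im q B).ncard : (0 : ℝ) ≤ (im q B).ncard)]
  rw [mul_add]
  linarith

/-- the primes: the quotient of `p` and `φ(p)` -/
theorem quot_le_two {p : ℕ} (hp : p.Prime) (k : ℕ) (hk : 0 < k) :
    ((p ^ k : ℕ) : ℝ) / ((p ^ k).totient : ℝ) ≤ 2 := by
  rw [Nat.totient_prime_pow hp hk]
  have h2 : (2 : ℝ) ≤ p := by exact_mod_cast hp.two_le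
  have h1 : ((p - 1 : ℕ) : ℝ) = (p : ℝ) - 1 := by
    rw [Nat.cast_sub hp.one_lt.le, Nat.cast_one]
  have h3 : (0 : ℝ) < (p : ℝ) ^ (k - 1) := by positivity
  rw [Nat.cast_mul, h1, Nat.cast_pow, Nat.cast_pow, div_le_iff₀ (by nlinarith)]
  obtain ⟨m, rfl⟩ : ∃ m, k = m + 1 := ⟨k - 1, by omega⟩
  rw [Nat.add_sub_cancel, pow_succ]
  have h4 : (p : ℝ) ^ m * p ≤ (p : ℝ) ^ m * (2 * (p - 1)) := by
    refine mul_le_mul_of_nonneg_left (by linarith) (by positivity)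
  linarith

/-- the classes where a polynomial vanishes, modulo a large prime -/
theorem im_zeros (t : MvPolynomial ι ℤ) (ht : t ≠ 0) : ∃ p₀ : ℕ, ∀ p : ℕ, p.Prime → p₀ ≤ p →
    ((im p {v : ι → ℤ | (p : ℤ) ∣ MvPolynomial.eval v t}).ncard : ℝ) * p ≤
      t.totalDegree * (p : ℝ) ^ Fintype.card ι := by
  classical
  obtain ⟨p₀, hp₀⟩ := zeros_le t ht
  refine ⟨p₀, fun p hp hpp => ?_⟩
  have hF : Fact p.Prime := ⟨hp⟩
  refine le_trans ?_ (hp₀ p hpp)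
  have hsub : im p {v : ι → ℤ | (p : ℤ) ∣ MvPolynomial.eval v t} ⊆
      {v : ι → ZMod p | ev v t = 0} := by
    rintro _ ⟨c, hc, rfl⟩
    have h4 : (p : ℤ) ∣ MvPolynomial.eval c t := hc
    show ev (fun i => (c i : ZMod p)) t = 0
    have h5 : (Int.castRingHom (ZMod p)).comp (MvPolynomial.eval c) =
        ev (fun i => (c i : ZMod p)) := by
      rw [hom_eq_ev ((Int.castRingHom (ZMod p)).comp (MvPolynomial.eval c))]
      congr 1
      funext i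
      rw [RingHom.comp_apply, MvPolynomial.eval_X]
      rfl
    rw [← h5, RingHom.comp_apply, eq_intCast, ZMod.intCast_zmod_eq_zero_iff_dvd]
    exact h4
  have h6 : (Nat.card {v : ι → ZMod p // ev v t = 0} : ℝ) =
      (({v : ι → ZMod p | ev v t = 0}.ncard : ℕ) : ℝ) := rfl
  rw [h6]
  refine mul_le_mul_of_nonneg_right ?_ (Nat.cast_nonneg _)
  exact_mod_cast Set.ncard_le_ncard hsub (Set.toFinite _)

/-- a polynomial is rarely divisible by a large prime -/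
theorem udf_densp (hc : Dominated S c) (t : MvPolynomial ι ℤ) (ht : t ≠ 0) (ε : ℝ) (hε : 0 < ε) :
    ∃ P₀ : ℕ, ∀ p : ℕ, p.Prime → P₀ ≤ p →
      UDF S c ε {v : ι → ℤ | (p : ℤ) ∣ MvPolynomial.eval v t} := by
  obtain ⟨C, A, M, hM, hc⟩ := hc
  obtain ⟨p₀, hp₀⟩ := im_zeros t ht
  set C' : ℝ := max C 1 with hC'
  have hC1 : (1 : ℝ) ≤ C' := le_max_right _ _
  have hCC : C ≤ C' := le_max_left _ _
  refine ⟨max p₀ (max (M + 1) ⌈C' * 2 ^ A * t.totalDegree / ε⌉₊), fun p hp hpp => ?_⟩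
  have h1 := hp₀ p hp ((le_max_left _ _).trans hpp)
  have h2 : M + 1 ≤ p := ((le_max_left _ _).trans (le_max_right _ _)).trans hpp
  have h3 : C' * 2 ^ A * t.totalDegree / ε ≤ p :=
    (Nat.le_ceil _).trans (by exact_mod_cast ((le_max_right _ _).trans (le_max_right _ _)).trans hpp)
  have hp0 : (0 : ℝ) < p := by exact_mod_cast hp.pos
  have hpM : p.Coprime M := (Nat.Prime.coprime_iff_not_dvd hp).2 fun h => by
    have := Nat.le_of_dvd hM h
    omega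
  refine UDF.le ?_ (udf_of_domAt hp.pos (hc p hp.squarefree hpM) _)
  have h4 : ((p : ℝ) / p.totient) ^ A ≤ 2 ^ A := by
    have := quot_le_two hp 1 one_pos
    rw [pow_one] at this
    exact pow_le_pow_left₀ (by positivity) this A
  rw [div_le_iff₀ hε] at h3
  have hQ : (0 : ℝ) < (p : ℝ) ^ Fintype.card ι := by positivity
  set I : ℝ := ((im p {v : ι → ℤ | (p : ℤ) ∣ MvPolynomial.eval v t}).ncard : ℝ) with hI
  have hI0 : 0 ≤ I := Nat.cast_nonneg _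
  have h5 : I * (C * ((p : ℝ) / p.totient) ^ A * ((p : ℝ) ^ Fintype.card ι)⁻¹) ≤
      I * (C' * 2 ^ A * ((p : ℝ) ^ Fintype.card ι)⁻¹) := by
    gcongr
  refine h5.trans ?_
  have h6 : I ≤ t.totalDegree * (p : ℝ) ^ Fintype.card ι / p := by
    rw [le_div_iff₀ hp0]
    exact h1
  calc I * (C' * 2 ^ A * ((p : ℝ) ^ Fintype.card ι)⁻¹)
      ≤ (t.totalDegree * (p : ℝ) ^ Fintype.card ι / p) *
        (C' * 2 ^ A * ((p : ℝ) ^ Fintype.card ι)⁻¹) := by gcongr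
    _ = C' * 2 ^ A * t.totalDegree / p := by field_simp
    _ ≤ ε := by
        rw [div_le_iff₀ hp0]
        linarith

/-- Hilbert's irreducibility theorem -/
theorem udf_hit (hc : Dominated S c) (P : Polynomial (MvPolynomial ι ℤ)) (hP : P.Monic)
    (hroot : ∀ a, P.eval a ≠ 0) (ε : ℝ) (hε : 0 < ε) :
    UDF S c ε {v : ι → ℤ | ∃ T : ℤ, (P.map (MvPolynomial.eval v)).eval T = 0} :=
  udf_of_rare (rare_of_dominated hc (hit_eval P hP hroot).strong) hε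

/-- a dominated family gives a density (`Pool.Agent.N938.TD`) -/
def denF (hc : Dominated S c) : Pool.Agent.N938.TD.Den ι where
  UD := UDF S c
  mono := fun h hST => UDF.mono h hST
  union := fun h h' => UDF.union h h'
  empty := fun hε => UDF.empty hε
  densp := fun t ht ε hε => udf_densp hc t ht ε hε
  hit := by
    intro P A B Δ hP _ _ hroot ε hε
    refine udf_hit hc P hP (fun a ha => ?_) ε hε
    apply hroot (MvPolynomial.map (Int.castRingHom ℚ) a)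
    rw [Polynomial.eval_map, Polynomial.eval₂_at_apply, ha, map_zero]

/-- a dominated family gives a density (`Pool.Agent.N455.TX`) -/
@[reducible] def smF (hc : Dominated S c) : Pool.Agent.N455.TX.Sm ι where
  UD := UDF S c
  mono' := fun h hST => UDF.mono h hST
  union' := fun h h' => UDF.union h h'
  le' := fun h hS => UDF.le h hS
  empty' := fun hε => UDF.empty hε
  densp' := fun t ht ε hε => udf_densp hc t ht ε hε
  hit' := fun P hP hroot ε hε => udf_hit hc P hP hroot ε hε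

/-- pronull, and rare in all dominated families -/
def AllNull (B : Set (ι → ℤ)) : Prop :=
  ProNull B ∧ ∀ (Ω : Type) (S : ℕ → Finset Ω) (c : Ω → ι → ℤ), Dominated S c → Rare S c B

theorem AllNull.mono {A B : Set (ι → ℤ)} (h : AllNull B) (hAB : A ⊆ B) : AllNull A :=
  ⟨(Pool.Agent.N24.RW.clo ι).1 A B hAB h.1, fun Ω S c hc => Rare.mono hAB (h.2 Ω S c hc)⟩

end

/-- The family of integral vectors `c w`, `w` in `Ω`, is dominated along the finite sets `S N` modulo all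
integers: there are `C`, `A` and `M` such that for all `q` prime to `M` the proportion of the `w` in `S N`
for which `c w` is in a given class modulo `q` is at most `C (q / φ(q)) ^ A q ^ (-r) + o(1)`, `N → ∞`. -/
def FullyDominated {ι : Type} [Fintype ι] {Ω : Type} (S : ℕ → Finset Ω) (c : Ω → ι → ℤ) : Prop :=
  ∃ (C : ℝ) (A M : ℕ), 0 < M ∧ ∀ q : ℕ, 0 < q → q.Coprime M →
    ∀ (a : ι → ZMod q) (ε : ℝ), 0 < ε → ∃ N₀ : ℕ, ∀ N : ℕ, N₀ ≤ N →
      (({w : Ω | w ∈ S N ∧ ∀ i, ((c w i : ℤ) : ZMod q) = a i}.ncard : ℕ) : ℝ) ≤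
        (C * ((q : ℝ) / q.totient) ^ A * ((q : ℝ) ^ Fintype.card ι)⁻¹ + ε) * (S N).card

section

variable {ι : Type} [Fintype ι] {Ω : Type} {S : ℕ → Finset Ω} {c : Ω → ι → ℤ}

theorem FullyDominated.dom (h : FullyDominated S c) : Dominated S c := by
  obtain ⟨C, A, M, hM, h⟩ := h
  exact ⟨C, A, M, hM, fun q hq hqM => h q (Nat.pos_of_ne_zero hq.ne_zero) hqM⟩

/-- a polynomial is rarely divisible by a high power of a prime `p` -/
theorem udf_dens (hc : FullyDominated S c) : ∃ P₁ : ℕ, ∀ t : MvPolynomial ι ℤ, t ≠ 0 → ∀ p : ℕ,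
    p.Prime → P₁ ≤ p → ∀ ε : ℝ, 0 < ε →
      ∃ V : ℕ, UDF S c ε {v : ι → ℤ | (p : ℤ) ^ (V + 1) ∣ MvPolynomial.eval v t} := by
  obtain ⟨C, A, M, hM, hc⟩ := hc
  refine ⟨M + 1, fun t ht p hp hpM ε hε => ?_⟩
  set C' : ℝ := max C 1 with hC'
  have hC1 : (1 : ℝ) ≤ C' := le_max_right _ _
  have hCC : C ≤ C' := le_max_left _ _
  obtain ⟨V, hV⟩ := Pool.Agent.W883.UB.Dens.main ι t ht p hp
    (ε / (C' * 2 ^ A) / (3 ^ Fintype.card ι)) (by positivity)
  have hpos : 0 < p ^ (V + 1) := Nat.pow_pos hp.pos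
  have : NeZero (p ^ (V + 1)) := ⟨hpos.ne'⟩
  have key : ∀ v : ι → ℤ, ev (fun i => (v i : ZMod (p ^ (V + 1)))) t = 0 ↔
      (p : ℤ) ^ (V + 1) ∣ MvPolynomial.eval v t := by
    intro v
    have h5 : (Int.castRingHom (ZMod (p ^ (V + 1)))).comp (MvPolynomial.eval v) =
        ev (fun i => (v i : ZMod (p ^ (V + 1)))) := by
      rw [hom_eq_ev ((Int.castRingHom (ZMod (p ^ (V + 1)))).comp (MvPolynomial.eval v))]
      congr 1
      funext i
      rw [RingHom.comp_apply, MvPolynomial.eval_X]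
      rfl
    rw [← h5, RingHom.comp_apply, eq_intCast, ZMod.intCast_zmod_eq_zero_iff_dvd]
    push_cast
    rfl
  have hset : {v : ι → ℤ | (p : ℤ) ^ (V + 1) ∣ MvPolynomial.eval v t} =
      {v : ι → ℤ | (fun i => (v i : ZMod (p ^ (V + 1)))) ∈
        {w : ι → ZMod (p ^ (V + 1)) | ev w t = 0}} := by
    ext v
    exact (key v).symm
  have hpM' : (p ^ (V + 1)).Coprime M := Nat.Coprime.pow_left _
    ((Nat.Prime.coprime_iff_not_dvd hp).2 fun h => by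
      have := Nat.le_of_dvd hM h
      omega)
  refine ⟨V, UDF.le ?_ (udf_of_domAt hpos (hc (p ^ (V + 1)) hpos hpM') _)⟩
  rw [hset] at hV
  have h1 := Pool.Agent.N891.OR.ncard_of_UD hpos {w : ι → ZMod (p ^ (V + 1)) | ev w t = 0}
    (by positivity) hV
  have h2 : 3 ^ Fintype.card ι * (ε / (C' * 2 ^ A) / 3 ^ Fintype.card ι) = ε / (C' * 2 ^ A) := by
    field_simp
  rw [h2] at h1
  have hsub : im (p ^ (V + 1)) {v : ι → ℤ | (p : ℤ) ^ (V + 1) ∣ MvPolynomial.eval v t} ⊆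
      {w : ι → ZMod (p ^ (V + 1)) | ev w t = 0} := by
    rintro _ ⟨c, hc, rfl⟩
    exact (key c).2 hc
  have h3 : ((im (p ^ (V + 1)) {v : ι → ℤ | (p : ℤ) ^ (V + 1) ∣ MvPolynomial.eval v t}).ncard : ℝ) ≤
      ε / (C' * 2 ^ A) * ((p ^ (V + 1) : ℕ) : ℝ) ^ Fintype.card ι := by
    refine le_trans ?_ h1
    exact_mod_cast Set.ncard_le_ncard hsub (Set.toFinite _)
  have h4 : (((p ^ (V + 1) : ℕ) : ℝ) / ((p ^ (V + 1)).totient : ℝ)) ^ A ≤ 2 ^ A :=
    pow_le_pow_left₀ (by positivity) (quot_le_two hp (V + 1) (Nat.succ_pos V)) A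
  set q : ℝ := ((p ^ (V + 1) : ℕ) : ℝ) with hq
  have hq0 : 0 < q := by rw [hq]; exact_mod_cast hpos
  set I : ℝ := ((im (p ^ (V + 1))
    {v : ι → ℤ | (p : ℤ) ^ (V + 1) ∣ MvPolynomial.eval v t}).ncard : ℝ) with hI
  have hI0 : 0 ≤ I := Nat.cast_nonneg _
  have h5 : I * (C * (q / ((p ^ (V + 1)).totient : ℝ)) ^ A * (q ^ Fintype.card ι)⁻¹) ≤
      I * (C' * 2 ^ A * (q ^ Fintype.card ι)⁻¹) := by
    gcongr
  refine h5.trans ?_
  calc I * (C' * 2 ^ A * (q ^ Fintype.card ι)⁻¹)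
      ≤ (ε / (C' * 2 ^ A) * q ^ Fintype.card ι) * (C' * 2 ^ A * (q ^ Fintype.card ι)⁻¹) := by
        gcongr
    _ = ε := by field_simp

theorem hdensF (hc : FullyDominated S c) : (denF hc.dom).HDens := udf_dens hc

theorem allNull_of_den {B : Set (ι → ℤ)} (h0 : ProNull B)
    (h : ∀ δ : Pool.Agent.N938.TD.Den ι, δ.D0 B) : AllNull B :=
  ⟨h0, fun _ _ _ hc => rare_of_udf (h (denF hc))⟩

theorem allNull_of_sm {B : Set (ι → ℤ)} (h0 : ProNull B)
    (h : ∀ [Pool.Agent.N455.TX.Sm ι], Pool.Agent.N455.TX.D0 B) : AllNull B := by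
  refine ⟨h0, fun Ω S c hc => rare_of_udf fun ε hε => ?_⟩
  let _ : Pool.Agent.N455.TX.Sm ι := smF hc
  exact h ε hε

theorem rare_of_hdens {B : Set (ι → ℤ)}
    (h : ∀ δ : Pool.Agent.N938.TD.Den ι, δ.HDens → δ.D0 B) (hc : FullyDominated S c) :
    Rare S c B :=
  rare_of_udf (h (denF hc.dom) (hdensF hc))

end

end Pool.Agent.Run7.h316.DN
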