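import Pool.Agent.Run7.h830.SF.Fam
import Pool.Agent.Run7.h316.DN.Rob

/-!
# Preperiodic points of bounded degree of the members of every non-isotrivial family of rational maps

The exceptional parameters are null sets of all the densities, in particular rare in all dominated families. The generic
member is treated in `Pool.Agent.Run7.h830.SF.Fam` (helper830), the transfer to the members is the one of
`Pool.Agent.N455.TX` (helper455, after `Pool.Agent.Y706`).
-/

set_option autoImplicit false

namespace Pool.Agent.Run7.h316.DN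

open Pool.Agent.Y706 Pool.Agent.Y706.BI Pool.Agent.Y681.BI
open Pool.Agent.H936R2 Pool.Agent.H927R2.RD H294UB
open Pool.Agent.W275.UB hiding UD D0 Gen S_dens S_densp S_hit S_exu S_urel S_gen S_genT S_type
open Pool.Agent.W193.UB Pool.Agent.W277.UH Pool.Agent.W277.UG Pool.Agent.W277.UC NumberField Filter
  Topology
open Run7.h830.SF (NB generic_few)

/-- **families**: the exceptional sets are null sets of all the densities; the proof is the one of
`Run7.h830.SF.t_famp` (helper830) with `allNull_sm` instead of `proNull_of` -/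
theorem t_all (k : Type) [Field k] [NumberField k] (J : Type) [Fintype J]
    (ω : Module.Basis J ℤ (𝓞 k)) (d B : ℕ) (hd : 2 ≤ d) (hB : 1 ≤ B) (m : ℕ)
    (P Q : Polynomial (MvPolynomial (Fin m) k)) (hmaxP : max P.natDegree Q.natDegree = d)
    (hco : IsCoprime (generic P) (generic Q)) (hiso : ¬ IsoAlg k (genBar P) (genBar Q) d) :
    AllNull {w : Fin (m + 1) × J → ℤ | ¬ (vec ω w 0 ≠ 0 ∧
      IsCoprime (P.map (MvPolynomial.eval (tp ω w))) (Q.map (MvPolynomial.eval (tp ω w))) ∧
      max (P.map (MvPolynomial.eval (tp ω w))).natDegree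
        (Q.map (MvPolynomial.eval (tp ω w))).natDegree = d ∧
      (preperB (P.map (MvPolynomial.eval (tp ω w))) (Q.map (MvPolynomial.eval (tp ω w)))
        d B).encard ≤ ((NB B d : ℕ) : ℕ∞))} := by
  classical
  obtain ⟨hmax, h1⟩ := generic_few k d B hd hB m P Q hmaxP hco hiso
  have h2 := fewB_of_encard (by omega) hmax hco B _ h1
  obtain ⟨s, hM⟩ := monIn_of_good (by omega) hmax hco
  have hcoe : co (generic P) (generic Q) d =
      fun i => algebraMap (MvPolynomial (Fin m) k) (RF k m) (co P Q d i) := by
    rw [co_map]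
    rfl
  rw [hcoe] at h2 hM
  have h3 := allNull_sm (ι := Fin (m + 1) × J) fun {_} =>
    Pool.Agent.N455.TX.paramB ω (AlgebraicClosure k) hd (co P Q d) hM h2
  refine AllNull.mono h3 ?_
  intro w hw hcon
  apply hw
  obtain ⟨g1, ⟨s', g2⟩, g3⟩ := hcon
  have htp : (fun i => MvPolynomial.eval (tp ω w) (co P Q d i)) =
      co (P.map (MvPolynomial.eval (tp ω w))) (Q.map (MvPolynomial.eval (tp ω w))) d := by
    rw [co_map]
  rw [htp] at g2 g3
  set p := P.map (MvPolynomial.eval (tp ω w)) with hp
  set q := Q.map (MvPolynomial.eval (tp ω w)) with hq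
  have hpd : p.natDegree ≤ d := Polynomial.natDegree_map_le.trans ((le_max_left _ _).trans hmaxP.le)
  have hqd : q.natDegree ≤ d := Polynomial.natDegree_map_le.trans ((le_max_right _ _).trans hmaxP.le)
  obtain ⟨hco', hmax'⟩ := of_monIn hpd hqd g2
  have g4 := encard_of_fewB (by omega) hmax' hco' hB _ g3
  refine ⟨g1, hco', hmax', ?_⟩
  have hsub : preperB p q d B ⊆ PB (AlgebraicClosure k) p q d B := by
    rintro z ⟨hz1, hz2⟩
    refine ⟨hz1, ?_⟩
    intro x hx
    have hint : IsIntegral k x := (Algebra.IsAlgebraic.isAlgebraic (R := k) x).isIntegral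
    refine ⟨IntermediateField.adjoin k {x}, IntermediateField.adjoin.finiteDimensional hint, ?_,
      IntermediateField.mem_adjoin_simple_self k x⟩
    rw [IntermediateField.adjoin.finrank hint]
    exact hz2 x hx
  exact (Set.encard_le_encard hsub).trans g4

end Pool.Agent.Run7.h316.DN
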