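import Pool.Agent.Run7.h316.DN.Avg
import Pool.Agent.Run7.h316.EQ.Tests
import Pool.Agent.N891.OR.Inst

/-!
# Thin sets are very null

Hilbert's irreducibility theorem for the very null sets: after `Pool.Agent.N455.HT` (helper455) and
`Pool.Agent.N891.OR` (helper891).
-/

set_option autoImplicit false
set_option linter.unusedSectionVars false

namespace Pool.Agent.Run7.h316.DN

open Pool.Agent.N455.HT Pool.Agent.Run7.h316.EQ

section

variable {ι : Type} [Fintype ι]

open Polynomial in
/-- thin sets: irreducible monic polynomials -/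
theorem very_irr {P : (MvPolynomial ι ℤ)[X]} (hP : P.Monic) (hd : 2 ≤ P.natDegree)
    (hirr : Irreducible P) : VeryNull {v : ι → ℤ | ∃ T : ℤ, IsRt P v T} := by
  classical
  obtain ⟨L₁, i₁, n₁, L₂, i₂, n₂, B, p₀, hB, h⟩ := dens_lower hP hd hirr
  have hD : (0 : ℝ) < P.natDegree := by exact_mod_cast (by omega : 0 < P.natDegree)
  refine veryNull_of_tests (C := 2 * P.natDegree) (by omega) fun N₀ => ?_
  obtain ⟨p, hp, hpp, hlt⟩ := exists_ge L₁ L₂ (a := 1 / P.natDegree) (b := 1 / (2 * P.natDegree))
    (by positivity) (by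
      rw [div_lt_div_iff₀ (by positivity) hD]
      linarith) hB (max p₀ N₀)
  refine ⟨p, (le_max_right _ _).trans hpp, hp, NR P p, ?_, ?_⟩
  · have h1 := h p hp ((le_max_left _ _).trans hpp)
    have hQ : (0 : ℝ) < (p : ℝ) ^ Fintype.card ι := by
      have := hp.pos
      positivity
    have h2 : 1 / (2 * (P.natDegree : ℝ)) ≤ ((NR P p).ncard : ℝ) / (p : ℝ) ^ Fintype.card ι := by
      linarith
    rw [div_le_div_iff₀ (by positivity) hQ, one_mul] at h2
    have h3 : ((p ^ Fintype.card ι : ℕ) : ℝ) ≤ ((2 * P.natDegree * (NR P p).ncard : ℕ) : ℝ) := by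
      push_cast
      linarith
    exact_mod_cast h3
  · rintro v ⟨T, hT⟩ hNR
    refine hNR (T : ZMod p) ?_
    rw [isRt_iff] at hT ⊢
    have h1 := congrArg (Int.castRingHom (ZMod p)) hT
    rw [hom_eval₂, map_zero] at h1
    have h5 : (Int.castRingHom (ZMod p)).comp (ev v : MvPolynomial ι ℤ →+* ℤ) =
        ev (fun i => (v i : ZMod p)) := by
      rw [hom_eq_ev ((Int.castRingHom (ZMod p)).comp (ev v))]
      congr 1
      funext i
      rw [RingHom.comp_apply, ev_X]
      rfl
    rw [h5] at h1
    exact h1

open Polynomial in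
/-- **Hilbert irreducibility for integral roots of monic polynomials: thin sets are very null.** -/
theorem hit_very : ∀ (m : ℕ)
    (P : (MvPolynomial ι ℤ)[X]), P.natDegree = m → P.Monic → (∀ a, P.eval a ≠ 0) →
    VeryNull {v : ι → ℤ | ∃ a : ℤ, IsRt P v a} := by
  intro m
  induction m using Nat.strong_induction_on with
  | _ m ih =>
    intro P hPm hP hroot
    by_cases h0 : P.natDegree = 0
    · have h1 : P = 1 := eq_one_of_monic_natDegree_zero hP h0
      refine VeryNull.mono ?_ veryNull_empty
      rintro n ⟨a, ha⟩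
      unfold IsRt at ha
      rw [h1, Polynomial.map_one, eval_one] at ha
      exact one_ne_zero ha
    · have hnu : ¬ IsUnit P := fun h => h0 (natDegree_eq_zero_of_isUnit h)
      obtain ⟨Q, hQ, R, hR⟩ := WfDvdMonoid.exists_irreducible_factor hnu hP.ne_zero
      -- make the factor monic
      have hlc : Q.leadingCoeff * R.leadingCoeff = 1 := by
        rw [← leadingCoeff_mul, ← hR]
        exact hP
      set Q' := Q * C R.leadingCoeff with hQ'
      set R' := R * C Q.leadingCoeff with hR'
      have hQm : Q'.Monic := by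
        unfold Polynomial.Monic
        rw [hQ', leadingCoeff_mul, leadingCoeff_C, hlc]
      have hRm : R'.Monic := by
        unfold Polynomial.Monic
        rw [hR', leadingCoeff_mul, leadingCoeff_C, mul_comm, hlc]
      have hPQR : P = Q' * R' := by
        rw [hR, hQ', hR']
        have : C R.leadingCoeff * C Q.leadingCoeff = (1 : (MvPolynomial ι ℤ)[X]) := by
          rw [← C_mul, mul_comm, hlc, C_1]
        calc Q * R = Q * R * (C R.leadingCoeff * C Q.leadingCoeff) := by rw [this, mul_one]
          _ = _ := by ring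
      have hQi : Irreducible Q' := by
        have hu : IsUnit (C R.leadingCoeff : (MvPolynomial ι ℤ)[X]) := by
          refine Polynomial.isUnit_C.2 ?_
          exact IsUnit.of_mul_eq_one Q.leadingCoeff (by rw [mul_comm]; exact hlc)
        rw [hQ', irreducible_mul_isUnit hu]
        exact hQ
      have hQr : ∀ a, Q'.eval a ≠ 0 := by
        intro a ha
        apply hroot a
        rw [hPQR, eval_mul, ha, zero_mul]
      have hQd : 2 ≤ Q'.natDegree := by
        by_contra hlt
        have h1 : Q'.natDegree = 0 ∨ Q'.natDegree = 1 := by omega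
        rcases h1 with h1 | h1
        · have h2 : Q' = 1 := eq_one_of_monic_natDegree_zero hQm h1
          exact hQi.not_isUnit (by rw [h2]; exact isUnit_one)
        · have h2 := hQm.eq_X_add_C h1
          apply hQr (-(Q'.coeff 0))
          rw [h2]
          simp
      have hdeg : Q'.natDegree + R'.natDegree = P.natDegree := by
        rw [hPQR, hQm.natDegree_mul hRm]
      have n1 : VeryNull {v : ι → ℤ | ∃ a : ℤ, IsRt Q' v a} := very_irr hQm hQd hQi
      have n2 := ih R'.natDegree (by omega) R' rfl hRm (by
        intro a ha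
        apply hroot a
        rw [hPQR, eval_mul, ha, mul_zero])
      refine VeryNull.mono ?_ (VeryNull.union n1 n2)
      rintro n ⟨a, ha⟩
      rw [hPQR] at ha
      rcases Pool.Agent.N891.OR.isRt_mul' ha with h | h
      · exact Or.inl ⟨a, h⟩
      · exact Or.inr ⟨a, h⟩

/-- the form used in the class of densities -/
theorem hit_eval (P : Polynomial (MvPolynomial ι ℤ)) (hP : P.Monic)
    (hroot : ∀ a, P.eval a ≠ 0) :
    VeryNull {v : ι → ℤ | ∃ T : ℤ, (P.map (MvPolynomial.eval v)).eval T = 0} := by
  refine (hit_very P.natDegree P rfl hP hroot).mono ?_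
  rintro v ⟨a, ha⟩
  refine ⟨a, ?_⟩
  unfold IsRt
  have h2 : (ev v : MvPolynomial ι ℤ →+* ℤ) = MvPolynomial.eval v := by
    refine RingHom.ext fun c => ?_
    rw [ev_eq_eval_map]
    congr 1
    exact MvPolynomial.map_id c
  rw [h2]
  exact ha

end

end Pool.Agent.Run7.h316.DN
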