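import Pool.Agent.Run7.h316.DN.Rob
import Pool.Agent.N938.TD.Low

/-!
# Preperiodic points of endomorphisms of `ℙ^N`: the exceptional sets are fully null

The theorems for all abstract densities are `Pool.Agent.N938.TD.final_order` and
`Pool.Agent.N938.TD.final_free` (helper938, after the projects UB and ND of helper275).
-/

set_option autoImplicit false

namespace Pool.Agent.Run7.h316.DN.UB

open MvPolynomial NumberField Pool.Agent.H936R2 Pool.Agent.H927R2.RD H294UB
open Pool.Agent.W275.UB hiding D0 UD bad1 typ2 bddO_of_type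
open Pool.Agent.W275.ND hiding bad0 no_low
open Pool.Agent.Run7.h316.DN (FullNull fullNull_den)

theorem full_bdd (N d D : ℕ) (hd : 2 ≤ d) : ∃ C : ℕ,
    ∀ (O J : Type) [CommRing O] [IsDomain O] [Fintype J] (ω : Module.Basis J ℤ O),
      FullNull {w : Idx (N + 1) d × J → ℤ | ¬ BddO D C (Ph ω w)} := by
  obtain ⟨C, hC⟩ := Pool.Agent.N938.TD.final_order N d D hd
  exact ⟨C, fun O J _ _ _ ω => fullNull_den fun δ hδ => hC O J ω δ hδ⟩

theorem full_free (N d : ℕ) (hN : 1 ≤ N) (hd : 2 ≤ d) (O J : Type) [CommRing O] [IsDomain O]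
    [Fintype J] (ω : Module.Basis J ℤ O) :
    FullNull {w : Idx (N + 1) d × J → ℤ | ¬ FreeO (d * Fintype.card J) (Ph ω w)} :=
  fullNull_den fun δ hδ => Pool.Agent.N938.TD.final_free N d hN hd O J ω δ hδ

end Pool.Agent.Run7.h316.DN.UB
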